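import Pool.Agent.V11249.NP.Prm
import Pool.Agent.TH464.PW.Quad

/-!
# Progressions: systems of linear and quadratic polynomials
-/

set_option autoImplicit false
set_option linter.unusedSectionVars false

namespace Pool.Agent.V11249.NP

open Polynomial Finset Filter
open Pool.Agent.W123.RP Pool.Agent.H373R2.T7 Pool.Agent.W123.RU Pool.Agent.W123.RU.Poly
open Pool.Agent.TH464.PW (quad quad_eval quad_deg quad_lead quad_irr)
open Pool.Agent.Y843.AC (APs)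

theorem lin_irr (b c : ℤ) (hb : b ≠ 0) (h : Int.gcd b c = 1) : Irreducible (quad 0 b c) := by
  have e : quad 0 b c = C b * X + C c := by
    unfold quad
    simp
  rw [e]
  have hp : (C b * X + C c : ℤ[X]).IsPrimitive := by
    rw [isPrimitive_iff_isUnit_of_C_dvd]
    intro r hr
    have h1 := (C_dvd_iff_dvd_coeff r _).1 hr
    have h0 := h1 0
    have h2 := h1 1
    simp only [coeff_add, coeff_C_mul, coeff_X, coeff_C] at h0 h2
    norm_num at h0 h2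
    have h3 : r ∣ (Int.gcd b c : ℤ) := Int.dvd_coe_gcd h2 h0
    rw [h] at h3
    exact isUnit_of_dvd_one (by exact_mod_cast h3)
  rw [Polynomial.IsPrimitive.Int.irreducible_iff_irreducible_map_cast hp]
  have : (C b * X + C c : ℤ[X]).map (Int.castRingHom ℚ) = C (b : ℚ) * X + C (c : ℚ) := by simp
  rw [this]
  apply irreducible_of_degree_eq_one
  exact degree_linear (by exact_mod_cast hb)

/-- criterion for a system of linear and quadratic polynomials -/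
theorem sys_of {r : ℕ} (A B E : Fin r → ℤ)
    (h1 : ∀ i, (0 < A i ∧ ¬ IsSquare (B i ^ 2 - 4 * A i * E i)) ∨ (A i = 0 ∧ 0 < B i))
    (h2 : ∀ i, Int.gcd (Int.gcd (A i) (B i)) (E i) = 1)
    (h3 : ∀ i j, A i = A j → B i = B j → E i = E j → i = j)
    (m1 m2 : ℕ)
    (h4 : Int.gcd (∏ i, (A i * (m1 : ℤ) ^ 2 + B i * m1 + E i)) (∏ i, (A i * (m2 : ℤ) ^ 2 + B i * m2 + E i)) = 1) :
    Sys (fun i => quad (A i) (B i) (E i)) := by
  have hg : ∀ i, ∀ p : ℕ, p.Prime → ¬ ((p : ℤ) ∣ A i ∧ (p : ℤ) ∣ B i ∧ (p : ℤ) ∣ E i) := by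
    rintro i p hp ⟨g1, g2, g3⟩
    have g4 : (p : ℤ) ∣ (Int.gcd (Int.gcd (A i) (B i)) (E i) : ℤ) := Int.dvd_coe_gcd (Int.dvd_coe_gcd g1 g2) g3
    rw [h2 i] at g4
    have g5 : p ∣ 1 := by exact_mod_cast g4
    exact hp.one_lt.ne' (Nat.dvd_one.1 g5)
  have hlin : ∀ i, A i = 0 → 0 < B i → (quad (A i) (B i) (E i)).natDegree = 1 ∧
      (quad (A i) (B i) (E i)).leadingCoeff = B i ∧ Irreducible (quad (A i) (B i) (E i)) := by
    intro i hA hB
    have e : quad (A i) (B i) (E i) = C (B i) * X + C (E i) := by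
      unfold quad
      rw [hA]
      simp
    refine ⟨?_, ?_, ?_⟩
    · rw [e]
      exact natDegree_linear hB.ne'
    · rw [e]
      exact leadingCoeff_linear hB.ne'
    · rw [hA]
      apply lin_irr _ _ hB.ne'
      have := h2 i
      rw [hA, Int.gcd_zero_left] at this
      rw [← this, Int.gcd, Int.gcd, Int.natAbs_natCast]
  refine ⟨?_, ?_, ?_, ?_, ?_⟩
  · intro i
    rcases h1 i with ⟨hA, hD⟩ | ⟨hA, hB⟩
    · exact quad_irr _ _ _ hA.ne' (hg i) hD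
    · exact (hlin i hA hB).2.2
  · intro i
    rcases h1 i with ⟨hA, hD⟩ | ⟨hA, hB⟩
    · rw [quad_deg _ _ _ hA.ne']
      norm_num
    · rw [(hlin i hA hB).1]
      norm_num
  · intro i
    rcases h1 i with ⟨hA, hD⟩ | ⟨hA, hB⟩
    · rw [quad_lead _ _ _ hA.ne']
      exact hA
    · rw [(hlin i hA hB).2.1]
      exact hB
  · intro i j hij
    have hc : ∀ n, (quad (A i) (B i) (E i)).coeff n = (quad (A j) (B j) (E j)).coeff n := by
      intro n
      have hij' : quad (A i) (B i) (E i) = quad (A j) (B j) (E j) := hij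
      rw [hij']
    have c0 := hc 0
    have c1 := hc 1
    have c2 := hc 2
    unfold quad at c0 c1 c2
    simp only [coeff_add, coeff_C_mul, coeff_X_pow, coeff_X, coeff_C] at c0 c1 c2
    norm_num at c0 c1 c2
    exact h3 i j c2 c1 c0
  · intro p hp
    by_contra hcon
    push Not at hcon
    have hpi : Prime (p : ℤ) := Nat.prime_iff_prime_int.1 hp
    have g : ∀ m : ℕ, (p : ℤ) ∣ ∏ i, (A i * (m : ℤ) ^ 2 + B i * m + E i) := by
      intro m
      obtain ⟨i, hi⟩ := hcon m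
      rw [quad_eval] at hi
      exact hi.trans (dvd_prod_of_mem _ (mem_univ i))
    have g4 := Int.dvd_coe_gcd (g m1) (g m2)
    rw [h4] at g4
    have g5 : p ∣ 1 := by exact_mod_cast g4
    exact hp.one_lt.ne' (Nat.dvd_one.1 g5)

/-- the four statements, transferred to other descriptions of the sets -/
theorem transfer {r : ℕ} (f : Fin r → ℤ[X]) (hf : Sys f) (R : ℝ → ℕ → ℕ → Prop) (T : ℕ → ℕ → Finset ℕ)
    (hR : ∀ κ N n, 1 ≤ n → R κ N n → Rgh f κ N n)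
    (hT : ∀ A N n, n ∈ T A N ↔ (A < n ∧ n ≤ A + N) ∧ ∀ i, ((f i).eval (n : ℤ)).natAbs.Prime)
    (k : ℕ) (hk : 1 ≤ k) :
    (∀ κ : ℝ, 0 < κ → ∃ C : ℝ, 0 < C ∧ ∃ B N₀ : ℕ, ∀ N A D : ℕ, N₀ ≤ N → Real.log N ^ B ≤ D →
      ∀ S : Finset ℕ, S ⊆ Ioc A (A + N) → (∀ n ∈ S, R κ N n) →
        ((APs k D S).card : ℝ) ≤ C * (N * D / Real.log N ^ (r * k))) ∧
    (∀ κ δ : ℝ, 0 < κ → 0 < δ → ∃ c : ℝ, 0 < c ∧ ∃ B N₀ : ℕ, ∀ N A D : ℕ, N₀ ≤ N →
      Real.log N ^ B ≤ D → D ≤ N → ∀ S : Finset ℕ, S ⊆ Ioc A (A + N) → (∀ n ∈ S, R κ N n) →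
        (δ * (N / Real.log N ^ r) ≤ S.card → c * (N * D / Real.log N ^ (r * k)) ≤ (APs k D S).card) ∧
        (δ * (N * D / Real.log N ^ (r * k)) ≤ (APs k D S).card → c * (N / Real.log N ^ r) ≤ S.card)) ∧
    (∃ C : ℝ, 0 < C ∧ ∃ B N₀ : ℕ, ∀ N A D : ℕ, N₀ ≤ N → Real.log N ^ B ≤ D →
      ((APs k D (T A N)).card : ℝ) ≤ C * (N * D / Real.log N ^ (r * k))) ∧
    (∀ δ : ℝ, 0 < δ → ∃ c : ℝ, 0 < c ∧ ∃ B N₀ : ℕ, ∀ N A D : ℕ, N₀ ≤ N → Real.log N ^ B ≤ D → D ≤ N →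
      (δ * (N / Real.log N ^ r) ≤ (T A N).card → c * (N * D / Real.log N ^ (r * k)) ≤ (APs k D (T A N)).card) ∧
      (δ * (N * D / Real.log N ^ (r * k)) ≤ (APs k D (T A N)).card → c * (N / Real.log N ^ r) ≤ (T A N).card)) := by
  have e1 : Fintype.card (Fin r) = r := by simp
  have eT : ∀ A N, T A N = Pf f A N := by
    intro A N
    ext n
    rw [hT, mem_Pf]
  refine ⟨?_, ?_, ?_, ?_⟩
  · intro κ hκ
    obtain ⟨C, hC, B, N₀, h⟩ := up f hf k hk κ hκ
    refine ⟨C, hC, B, N₀, fun N A D hN hD S hS hRS => ?_⟩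
    have := h N A D hN hD S hS (fun n hn => hR κ N n (by
      have := mem_Ioc.1 (hS hn)
      omega) (hRS n hn))
    rwa [e1] at this
  · intro κ δ hκ hδ
    obtain ⟨c, hc, B, N₀, h⟩ := dn f hf k hk κ δ hκ hδ
    refine ⟨c, hc, B, N₀, fun N A D hN hD hDN S hS hRS => ?_⟩
    have := h N A D hN hD hDN S hS (fun n hn => hR κ N n (by
      have := mem_Ioc.1 (hS hn)
      omega) (hRS n hn))
    rwa [e1] at this
  · obtain ⟨C, hC, B, N₀, h⟩ := prime_up f hf k hk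
    refine ⟨C, hC, B, N₀, fun N A D hN hD => ?_⟩
    have := h N A D hN hD
    rwa [e1, ← eT] at this
  · intro δ hδ
    obtain ⟨c, hc, B, N₀, h⟩ := prime_dn f hf k hk δ hδ
    refine ⟨c, hc, B, N₀, fun N A D hN hD hDN => ?_⟩
    have := h N A D hN hD hDN
    rwa [e1, ← eT] at this

end Pool.Agent.V11249.NP
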