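import Pool.Agent.V11249.NP.Fam

/-!
# Progressions: Cunningham chains of both kinds
-/

set_option autoImplicit false

namespace Pool.Agent.V11249.NP.Chain

open Polynomial Finset
open Pool.Agent.W123.RU.Poly
open Pool.Agent.TH464.PW (quad quad_eval)

/-- the linear polynomials `2 ^ i x + σ (2 ^ i - 1)` -/
noncomputable def f (l : ℕ) (σ : ℤ) : Fin l → ℤ[X] := fun i => quad 0 (2 ^ (i : ℕ)) (σ * (2 ^ (i : ℕ) - 1))

theorem ev (l : ℕ) (σ : ℤ) (i : Fin l) (x : ℤ) : (f l σ i).eval x = 2 ^ (i : ℕ) * x + σ * (2 ^ (i : ℕ) - 1) := by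
  unfold f
  rw [quad_eval]
  ring

theorem fe (l : ℕ) (σ : ℤ) (i : Fin l) : f l σ i = C (2 ^ (i : ℕ)) * X + C (σ * (2 ^ (i : ℕ) - 1)) := by
  unfold f quad
  simp

theorem sys (l : ℕ) (σ : ℤ) (hσ : σ = 1 ∨ σ = -1) : Sys (f l σ) := by
  have h0 : ∀ i : ℕ, (0 : ℤ) < 2 ^ i := fun i => by positivity
  refine ⟨?_, ?_, ?_, ?_, ?_⟩
  · intro i
    refine lin_irr _ _ (h0 i).ne' ?_
    rw [← Int.isCoprime_iff_gcd_eq_one]
    refine ⟨1, -σ, ?_⟩
    rcases hσ with rfl | rfl <;> ring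
  · intro i
    rw [fe, natDegree_linear (h0 i).ne']
    norm_num
  · intro i
    rw [fe, leadingCoeff_linear (h0 i).ne']
    exact h0 i
  · intro i j hij
    have h1 : (f l σ i).coeff 1 = (f l σ j).coeff 1 := by rw [hij]
    rw [fe, fe] at h1
    simp only [coeff_add, coeff_C_mul, coeff_X, coeff_C] at h1
    norm_num at h1
    exact Fin.ext h1
  · intro p hp
    have hp1 : ¬ (p : ℤ) ∣ 1 := by
      intro h
      have h1 : p ∣ 1 := by exact_mod_cast h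
      exact hp.one_lt.ne' (Nat.dvd_one.1 h1)
    rcases hσ with rfl | rfl
    · refine ⟨p - 1, fun i h => hp1 ?_⟩
      rw [ev, Nat.cast_sub hp.one_lt.le] at h
      have e : (2 : ℤ) ^ (i : ℕ) * ((p : ℤ) - ((1 : ℕ) : ℤ)) + 1 * (2 ^ (i : ℕ) - 1) = p * 2 ^ (i : ℕ) - 1 := by
        push_cast
        ring
      rw [e] at h
      have := dvd_sub (dvd_mul_right (p : ℤ) (2 ^ (i : ℕ))) h
      rwa [sub_sub_cancel] at this
    · refine ⟨1, fun i h => hp1 ?_⟩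
      rw [ev] at h
      have e : (2 : ℤ) ^ (i : ℕ) * ((1 : ℕ) : ℤ) + -1 * (2 ^ (i : ℕ) - 1) = 1 := by
        push_cast
        ring
      rwa [e] at h

/-- the value of the first kind -/
theorem ev_one (l : ℕ) (i : Fin l) (n : ℕ) : (f l 1 i).eval (n : ℤ) = ((2 ^ (i : ℕ) * (n + 1) - 1 : ℕ) : ℤ) := by
  have h : 1 ≤ 2 ^ (i : ℕ) * (n + 1) := Nat.one_le_iff_ne_zero.2 (by positivity)
  rw [ev, Nat.cast_sub h]
  push_cast
  ring

/-- the value of the second kind -/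
theorem ev_two (l : ℕ) (i : Fin l) {n : ℕ} (hn : 1 ≤ n) :
    (f l (-1) i).eval (n : ℤ) = ((2 ^ (i : ℕ) * (n - 1) + 1 : ℕ) : ℤ) := by
  rw [ev]
  push_cast [Nat.cast_sub hn]
  ring

end Pool.Agent.V11249.NP.Chain
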