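import Pool.Agent.V11249.NP.Uni

/-!
# Progressions of arguments of systems of polynomials of bounded degrees, uniformly in the system
-/

set_option autoImplicit false
set_option linter.unusedSectionVars false

namespace Pool.Agent.V11249.NP.UniG

open Polynomial Finset Filter
open Pool.Agent.W123.RP Pool.Agent.H373R2.T7
open Pool.Agent.W123.RU.Poly (Q)
open Pool.Agent.Y843.HS (Pr VV)
open Pool.Agent.Y843.AC (APs OK Av)
open Pool.Agent.V11249.NP (Rgh pow_small APs_mono)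
open Pool.Agent.V11249.NP.Uni (APs_diff)

variable {r : ℕ}

/-- systems of `r` nonconstant polynomials of degree at most `d` without a fixed prime divisor -/
structure US (d : ℕ) (f : Fin r → ℤ[X]) : Prop where
  deg : ∀ i, 1 ≤ (f i).natDegree ∧ (f i).natDegree ≤ d
  adm : ∀ p : ℕ, p.Prime → ∃ m : ℕ, ∀ i, ¬ (p : ℤ) ∣ (f i).eval (m : ℤ)

open Classical in
noncomputable def ZZ (f : Fin r → ℤ[X]) (p : ℕ) : Finset ℕ := (range p).filter (fun m => Q f p m)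

theorem ZZ_card (f : Fin r → ℤ[X]) (p : ℕ) : (ZZ f p).card = nuB (Q f) p := rfl

theorem mem_ZZ {f : Fin r → ℤ[X]} {p x : ℕ} : x ∈ ZZ f p ↔ x < p ∧ ∃ i, (p : ℤ) ∣ (f i).eval (x : ℤ) := by
  classical
  unfold ZZ
  rw [mem_filter, mem_range]
  rfl

/-- the number of the roots of one polynomial -/
theorem roots_one (g : ℤ[X]) (p : ℕ) (hp : p.Prime) (h : ∃ m : ℕ, ¬ (p : ℤ) ∣ g.eval (m : ℤ)) :
    ((range p).filter (fun m : ℕ => (p : ℤ) ∣ g.eval (m : ℤ))).card ≤ g.natDegree := by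
  classical
  have : Fact p.Prime := ⟨hp⟩
  set G : (ZMod p)[X] := g.map (Int.castRingHom (ZMod p)) with hG
  have hev : ∀ m : ℕ, G.eval (m : ZMod p) = ((g.eval (m : ℤ) : ℤ) : ZMod p) := by
    intro m
    rw [hG, eval_natCast_map]
    simp
  have hG0 : G ≠ 0 := by
    intro h0
    obtain ⟨m, hm⟩ := h
    apply hm
    rw [← ZMod.intCast_zmod_eq_zero_iff_dvd, ← hev, h0, eval_zero]
  set T := (range p).filter (fun m : ℕ => (p : ℤ) ∣ g.eval (m : ℤ)) with hT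
  have h1 : (T.image (fun m : ℕ => (m : ZMod p))).card = T.card := by
    apply card_image_of_injOn
    intro x hx y hy hxy
    rw [hT, Finset.mem_coe, mem_filter, mem_range] at hx hy
    have := (ZMod.natCast_eq_natCast_iff x y p).1 hxy
    exact Nat.ModEq.eq_of_lt_of_lt this hx.1 hy.1
  rw [← h1]
  have h2 : T.image (fun m : ℕ => (m : ZMod p)) ⊆ G.roots.toFinset := by
    intro x hx
    rw [mem_image] at hx
    obtain ⟨m, hm, rfl⟩ := hx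
    rw [hT, mem_filter] at hm
    rw [Multiset.mem_toFinset, mem_roots hG0, IsRoot.def, hev]
    exact (ZMod.intCast_zmod_eq_zero_iff_dvd _ p).2 hm.2
  calc (T.image (fun m : ℕ => (m : ZMod p))).card ≤ G.roots.toFinset.card := card_le_card h2
    _ ≤ Multiset.card G.roots := Multiset.toFinset_card_le _
    _ ≤ G.natDegree := G.card_roots'
    _ ≤ g.natDegree := natDegree_map_le

theorem nu_le {d : ℕ} {f : Fin r → ℤ[X]} (h : US d f) {p : ℕ} (hp : p.Prime) : nuB (Q f) p ≤ r * d := by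
  classical
  rw [← ZZ_card]
  have h1 : ZZ f p ⊆ univ.biUnion (fun i => (range p).filter (fun m : ℕ => (p : ℤ) ∣ (f i).eval (m : ℤ))) := by
    intro x hx
    obtain ⟨h1, i, hi⟩ := mem_ZZ.1 hx
    rw [mem_biUnion]
    exact ⟨i, mem_univ i, mem_filter.2 ⟨mem_range.2 h1, hi⟩⟩
  refine (card_le_card h1).trans (card_biUnion_le.trans ?_)
  obtain ⟨m, hm⟩ := h.adm p hp
  refine (sum_le_card_nsmul _ _ d (fun i _ => (roots_one (f i) p hp ⟨m, hm i⟩).trans (h.deg i).2)).trans ?_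
  rw [card_univ, Fintype.card_fin, smul_eq_mul]

theorem nu_lt {d : ℕ} {f : Fin r → ℤ[X]} (h : US d f) {p : ℕ} (hp : p.Prime) : nuB (Q f) p < p := by
  classical
  rw [← ZZ_card]
  obtain ⟨m, hm⟩ := h.adm p hp
  have h1 : ZZ f p ⊆ (range p).erase (m % p) := by
    intro x hx
    obtain ⟨h1, i, hi⟩ := mem_ZZ.1 hx
    rw [mem_erase, mem_range]
    refine ⟨?_, h1⟩
    rintro rfl
    exact hm i ((Pool.Agent.W123.RU.Poly.per1 (f i) p m).2 hi)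
  refine lt_of_le_of_lt (card_le_card h1) ?_
  rw [card_erase_of_mem (mem_range.2 (Nat.mod_lt _ hp.pos)), card_range]
  have := hp.pos
  omega

theorem perB {d : ℕ} {f : Fin r → ℤ[X]} (h : US d f) : PerB (Q f) (r * d) :=
  ⟨fun p n => Pool.Agent.W123.RU.Poly.per f p n, fun _ hp => nu_le h hp⟩

theorem ok {d : ℕ} {f : Fin r → ℤ[X]} (h : US d f) (κ : ℝ) (X : ℕ) : OK (r * d) κ X (ZZ f) := by
  intro p hp _
  exact ⟨nu_le h hp, nu_lt h hp, fun x hx => (mem_ZZ.1 hx).1⟩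

theorem av_of {f : Fin r → ℤ[X]} {κ : ℝ} {X n : ℕ} (h : Rgh f κ X n) : Av κ X (ZZ f) n := by
  intro p hp hpX hcon
  obtain ⟨-, i, hi⟩ := mem_ZZ.1 hcon
  have := h i p hp ((Pool.Agent.W123.RU.Poly.per1 (f i) p n).2 hi)
  linarith

theorem VV_eq (f : Fin r → ℤ[X]) (y : ℕ) : VV (ZZ f) 0 y = Vq (Q f) y := by
  unfold VV Vq
  apply prod_congr
  · ext q
    unfold Pr
    rw [mem_filter, mem_Ioc, mem_pz]
    constructor
    · rintro ⟨⟨a, b⟩, c⟩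
      exact ⟨b, c⟩
    · rintro ⟨b, c⟩
      exact ⟨⟨c.pos, b⟩, c⟩
  · intro q _
    rw [ZZ_card]

/-- the number of solutions of `g n = v` -/
theorem card_fib (g : ℤ[X]) (hg : 1 ≤ g.natDegree) (v : ℤ) (S : Finset ℕ) :
    (S.filter (fun n : ℕ => g.eval (n : ℤ) = v)).card ≤ g.natDegree := by
  classical
  set T := S.filter (fun n : ℕ => g.eval (n : ℤ) = v) with hT
  have h1 : (T.image (fun m : ℕ => (m : ℤ))).card = T.card := card_image_of_injective _ Nat.cast_injective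
  rw [← h1]
  have hd : (g - C v).natDegree = g.natDegree := natDegree_sub_C
  have h0 : g - C v ≠ 0 := by
    intro h
    rw [h, natDegree_zero] at hd
    omega
  have h2 : T.image (fun m : ℕ => (m : ℤ)) ⊆ (g - C v).roots.toFinset := by
    intro x hx
    rw [mem_image] at hx
    obtain ⟨m, hm, rfl⟩ := hx
    rw [hT, mem_filter] at hm
    rw [Multiset.mem_toFinset, mem_roots h0, IsRoot.def, eval_sub, eval_C, hm.2, sub_self]
  calc (T.image (fun m : ℕ => (m : ℤ))).card ≤ (g - C v).roots.toFinset.card := card_le_card h2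
    _ ≤ Multiset.card (g - C v).roots := Multiset.toFinset_card_le _
    _ ≤ (g - C v).natDegree := (g - C v).card_roots'
    _ = g.natDegree := hd

open Classical in
/-- few arguments with a small value -/
theorem card_small {d : ℕ} {f : Fin r → ℤ[X]} (h : US d f) (M : ℕ) (S : Finset ℕ) :
    (S.filter (fun n : ℕ => ∃ i, ((f i).eval (n : ℤ)).natAbs ≤ M)).card ≤ r * ((2 * M + 1) * d) := by
  have h1 : S.filter (fun n : ℕ => ∃ i, ((f i).eval (n : ℤ)).natAbs ≤ M) ⊆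
      univ.biUnion (fun i => (Icc (-(M : ℤ)) M).biUnion (fun v => S.filter (fun n : ℕ => (f i).eval (n : ℤ) = v))) := by
    intro n hn
    rw [mem_filter] at hn
    obtain ⟨h1, i, hi⟩ := hn
    rw [mem_biUnion]
    refine ⟨i, mem_univ i, ?_⟩
    rw [mem_biUnion]
    refine ⟨(f i).eval (n : ℤ), ?_, ?_⟩
    · rw [mem_Icc]
      omega
    · rw [mem_filter]
      exact ⟨h1, rfl⟩
  refine (card_le_card h1).trans (card_biUnion_le.trans ?_)
  refine (sum_le_card_nsmul _ _ ((2 * M + 1) * d) (fun i _ => ?_)).trans ?_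
  · refine card_biUnion_le.trans ?_
    refine (sum_le_card_nsmul _ _ d (fun v _ => (card_fib (f i) (h.deg i).1 v S).trans (h.deg i).2)).trans ?_
    rw [Int.card_Icc, smul_eq_mul]
    apply Nat.mul_le_mul_right
    omega
  · rw [card_univ, Fintype.card_fin, smul_eq_mul]

/-- lower bound for the sieve product -/
theorem V_low (r d : ℕ) (κ : ℝ) (hκ : 0 < κ) : ∃ v : ℝ, 0 < v ∧ ∃ X₀ : ℕ, ∀ X : ℕ, X₀ ≤ X →
    ∀ f : Fin r → ℤ[X], US d f → v / Real.log X ^ (r * d) ≤ VV (ZZ f) 0 ⌊(X : ℝ) ^ κ⌋₊ := by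
  obtain ⟨v, hv, h⟩ := Pool.Agent.TH464.PO.V_lower_unif (r * d)
  have e1 : ∀ᶠ X : ℕ in atTop, (3 : ℝ) ≤ (X : ℝ) ^ κ :=
    ((tendsto_rpow_atTop hκ).comp tendsto_natCast_atTop_atTop).eventually (eventually_ge_atTop 3)
  obtain ⟨X₁, h1⟩ := eventually_atTop.1 e1
  refine ⟨v / κ ^ (r * d), by positivity, max X₁ 3, fun X hX f hadm => ?_⟩
  have hX0 : (0 : ℝ) < X := by exact_mod_cast (by omega : 0 < X)
  have hl : 0 < Real.log X := Real.log_pos (by exact_mod_cast (by omega : 1 < X))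
  have h2 := h1 X (by omega)
  have hy2 : 2 ≤ ⌊(X : ℝ) ^ κ⌋₊ := Nat.le_floor (by push_cast; linarith)
  have hy0 : (1 : ℝ) < (⌊(X : ℝ) ^ κ⌋₊ : ℝ) := by exact_mod_cast (by omega : 1 < ⌊(X : ℝ) ^ κ⌋₊)
  have l0 : 0 < Real.log (⌊(X : ℝ) ^ κ⌋₊ : ℝ) := Real.log_pos hy0
  have h6 : (⌊(X : ℝ) ^ κ⌋₊ : ℝ) ≤ (X : ℝ) ^ κ := Nat.floor_le (by positivity)
  have l2 : Real.log (⌊(X : ℝ) ^ κ⌋₊ : ℝ) ≤ κ * Real.log X := by
    rw [← Real.log_rpow hX0]
    exact Real.log_le_log (by linarith) h6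
  rw [VV_eq]
  refine le_trans ?_ (h (Q f) (perB hadm) (fun p hp => nu_lt hadm hp) _ hy2)
  rw [div_div, ← mul_pow]
  apply div_le_div_of_nonneg_left hv.le (by positivity)
  exact pow_le_pow_left₀ l0.le l2 _

/-- the arguments in the window at which all values are primes (up to the sign) -/
def Pf (f : Fin r → ℤ[X]) (A N : ℕ) : Finset ℕ :=
  (Ioc A (A + N)).filter (fun n => ∀ i, ((f i).eval (n : ℤ)).natAbs.Prime)

open Classical in
/-- the small values -/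
noncomputable def Ef (f : Fin r → ℤ[X]) (A N : ℕ) : Finset ℕ :=
  (Pf f A N).filter (fun n : ℕ => ∃ i, ((f i).eval (n : ℤ)).natAbs ≤ ⌊(N : ℝ) ^ (1 / 4 : ℝ)⌋₊)

theorem rgh_big {f : Fin r → ℤ[X]} {A N n : ℕ} (h1 : n ∈ Pf f A N) (h2 : n ∉ Ef f A N) :
    Rgh f (1 / 4) N n := by
  classical
  intro i p hp hd
  have h3 : ¬ ((f i).eval (n : ℤ)).natAbs ≤ ⌊(N : ℝ) ^ (1 / 4 : ℝ)⌋₊ := by
    intro h
    apply h2
    unfold Ef
    rw [mem_filter]
    exact ⟨h1, i, h⟩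
  unfold Pf at h1
  rw [mem_filter] at h1
  have h7 : p = ((f i).eval (n : ℤ)).natAbs :=
    (Nat.prime_dvd_prime_iff_eq hp (h1.2 i)).1 (Int.natCast_dvd.1 hd)
  rw [h7]
  exact (Nat.floor_lt (by positivity)).1 (not_le.1 h3)

theorem card_Ef {d : ℕ} {f : Fin r → ℤ[X]} (h : US d f) {A N : ℕ} (hN : 1 ≤ N) :
    ((Ef f A N).card : ℝ) ≤ (3 * r * d) * (N : ℝ) ^ (1 / 2 : ℝ) := by
  classical
  have h1 := card_small h ⌊(N : ℝ) ^ (1 / 4 : ℝ)⌋₊ (Pf f A N)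
  have h2 : ((Ef f A N).card : ℝ) ≤ r * ((2 * (⌊(N : ℝ) ^ (1 / 4 : ℝ)⌋₊ : ℕ) + 1) * d) := by
    unfold Ef
    exact_mod_cast h1
  have h3 : ((⌊(N : ℝ) ^ (1 / 4 : ℝ)⌋₊ : ℕ) : ℝ) ≤ (N : ℝ) ^ (1 / 4 : ℝ) := Nat.floor_le (by positivity)
  have hN1 : (1 : ℝ) ≤ N := by exact_mod_cast hN
  have h4 : (N : ℝ) ^ (1 / 4 : ℝ) ≤ (N : ℝ) ^ (1 / 2 : ℝ) :=
    Real.rpow_le_rpow_of_exponent_le hN1 (by norm_num)
  have h5 : (1 : ℝ) ≤ (N : ℝ) ^ (1 / 2 : ℝ) := Real.one_le_rpow hN1 (by norm_num)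
  have h6 : 2 * ((⌊(N : ℝ) ^ (1 / 4 : ℝ)⌋₊ : ℕ) : ℝ) + 1 ≤ 3 * (N : ℝ) ^ (1 / 2 : ℝ) := by linarith
  refine h2.trans ?_
  calc (r : ℝ) * ((2 * (⌊(N : ℝ) ^ (1 / 4 : ℝ)⌋₊ : ℕ) + 1) * d) ≤ r * ((3 * (N : ℝ) ^ (1 / 2 : ℝ)) * d) := by
        gcongr
    _ = _ := by ring

/-- the sieve product -/
noncomputable def V (f : Fin r → ℤ[X]) (κ : ℝ) (N : ℕ) : ℝ := VV (ZZ f) 0 ⌊(N : ℝ) ^ κ⌋₊

theorem V_nonneg {d : ℕ} {f : Fin r → ℤ[X]} (h : US d f) (κ : ℝ) (N : ℕ) : 0 ≤ V f κ N := by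
  unfold V VV
  apply prod_nonneg
  intro p hp
  unfold Pr at hp
  rw [mem_filter] at hp
  have hp0 : (0 : ℝ) < p := by exact_mod_cast hp.2.pos
  rw [sub_nonneg, div_le_one hp0, ZZ_card]
  exact_mod_cast (nu_lt h hp.2).le

theorem up (r d k : ℕ) (hk : 1 ≤ k) (κ : ℝ) (hκ : 0 < κ) :
    ∃ C : ℝ, 0 < C ∧ ∃ B X₀ : ℕ, ∀ f : Fin r → ℤ[X], US d f → ∀ X A D : ℕ, X₀ ≤ X → Real.log X ^ B ≤ D →
      ∀ S : Finset ℕ, S ⊆ Ioc A (A + X) → (∀ n ∈ S, Rgh f κ X n) →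
      ((APs k D S).card : ℝ) ≤ C * (X * D * V f κ X ^ k) := by
  obtain ⟨C, hC, B, X₂, h2⟩ := Pool.Agent.Y843.AC.upa_all (r * d) k κ hk hκ
  refine ⟨C, hC, B, X₂, fun f hadm X A D hX hD S hS hR => ?_⟩
  refine (h2 X A D hX hD (ZZ f) (ok hadm κ X) S hS (fun n hn => av_of (hR n hn))).trans ?_
  apply le_of_eq
  unfold V
  ring

theorem dn (r d k : ℕ) (hk : 1 ≤ k) (κ δ : ℝ) (hκ : 0 < κ) (hδ : 0 < δ) :
    ∃ c₀ : ℝ, 0 < c₀ ∧ ∃ B X₀ : ℕ, ∀ f : Fin r → ℤ[X], US d f → ∀ X A D : ℕ, X₀ ≤ X →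
      Real.log X ^ B ≤ D → D ≤ X → ∀ S : Finset ℕ, S ⊆ Ioc A (A + X) → (∀ n ∈ S, Rgh f κ X n) →
      (δ * (X * V f κ X) ≤ S.card → c₀ * (X * D * V f κ X ^ k) ≤ ((APs k D S).card : ℝ)) ∧
      (δ * (X * D * V f κ X ^ k) ≤ ((APs k D S).card : ℝ) → c₀ * (X * V f κ X) ≤ S.card) := by
  obtain ⟨c₁, hc₁, B₁, X₂, h2⟩ := Pool.Agent.Y843.AC.cnt_all (r * d) k κ δ hk hκ hδ
  obtain ⟨c₂, hc₂, B₂, X₃, h3⟩ := Pool.Agent.Y843.AC.conv_all (r * d) k κ δ hk hκ hδ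
  refine ⟨min c₁ c₂, by positivity, max B₁ B₂, max (max X₂ X₃) 3, fun f hadm X A D hX hD hDX S hS hR => ?_⟩
  have hX3 : (3 : ℝ) ≤ X := by exact_mod_cast (by omega : 3 ≤ X)
  have hl1 : 1 ≤ Real.log X := by
    rw [Real.le_log_iff_exp_le (by linarith)]
    have := Real.exp_one_lt_d9
    linarith
  have hD1 : Real.log X ^ B₁ ≤ D := (pow_le_pow_right₀ hl1 (le_max_left _ _)).trans hD
  have hD2 : Real.log X ^ B₂ ≤ D := (pow_le_pow_right₀ hl1 (le_max_right _ _)).trans hD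
  have hAv : ∀ n ∈ S, Av κ X (ZZ f) n := fun n hn => av_of (hR n hn)
  have hV0 := V_nonneg hadm κ X
  constructor
  · intro h
    have h4 := h2 X A D (by omega) hD1 hDX (ZZ f) (ok hadm κ X) S hS hAv (by
      refine le_trans (le_of_eq ?_) h
      unfold V
      ring)
    refine le_trans ?_ h4
    calc min c₁ c₂ * (X * D * V f κ X ^ k) ≤ c₁ * (X * D * V f κ X ^ k) := by
          apply mul_le_mul_of_nonneg_right (min_le_left _ _) (by positivity)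
      _ = _ := by
          unfold V
          ring
  · intro h
    have h4 := h3 X A D (by omega) hD2 (ZZ f) (ok hadm κ X) S hS hAv (by
      refine le_trans (le_of_eq ?_) h
      unfold V
      ring)
    refine le_trans ?_ h4
    calc min c₁ c₂ * (X * V f κ X) ≤ c₂ * (X * V f κ X) := by
          apply mul_le_mul_of_nonneg_right (min_le_right _ _) (by positivity)
      _ = _ := by
          unfold V
          ring

/-- removing the small values -/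
theorem small_ok (r d k m : ℕ) (ε : ℝ) (hε : 0 < ε) : ∃ X₀ : ℕ, ∀ X : ℕ, X₀ ≤ X →
    ∀ f : Fin r → ℤ[X], US d f → ∀ A : ℕ,
      (k + 1 : ℝ) * (Ef f A X).card ≤ ε * (X * V f (1 / 4) X ^ m) := by
  obtain ⟨v, hv, X₁, h1⟩ := V_low r d (1 / 4) (by norm_num)
  obtain ⟨X₂, hX₂, h2⟩ := pow_small (r * d * m) (ε * v ^ m / ((3 * r * d + 1) * (k + 1))) (by positivity)
  refine ⟨max X₁ X₂, fun X hX f hadm A => ?_⟩
  have h3 := h2 X (by omega)
  have h4 := h1 X (by omega) f hadm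
  have h5 := card_Ef hadm (A := A) (N := X) (by omega)
  have hl : 0 < Real.log X := Real.log_pos (by exact_mod_cast (by omega : 1 < X))
  have h6 : (v / Real.log X ^ (r * d)) ^ m ≤ V f (1 / 4) X ^ m := pow_le_pow_left₀ (by positivity) h4 m
  have h7 : (0 : ℝ) ≤ (X : ℝ) ^ (1 / 2 : ℝ) := by positivity
  calc (k + 1 : ℝ) * (Ef f A X).card ≤ (k + 1 : ℝ) * ((3 * r * d) * (X : ℝ) ^ (1 / 2 : ℝ)) := by gcongr
    _ ≤ (k + 1 : ℝ) * ((3 * r * d + 1) * (X : ℝ) ^ (1 / 2 : ℝ)) := by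
        apply mul_le_mul_of_nonneg_left _ (by positivity)
        apply mul_le_mul_of_nonneg_right _ h7
        linarith
    _ ≤ (k + 1 : ℝ) * ((3 * r * d + 1) *
          (ε * v ^ m / ((3 * r * d + 1) * (k + 1)) * (X / Real.log X ^ (r * d * m)))) := by
        gcongr
        linarith
    _ = ε * (X * (v / Real.log X ^ (r * d)) ^ m) := by
        rw [div_pow, ← pow_mul]
        field_simp
    _ ≤ _ := by gcongr

open Classical in
theorem prime_up (r d k : ℕ) (hk : 1 ≤ k) :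
    ∃ C : ℝ, 0 < C ∧ ∃ B X₀ : ℕ, ∀ f : Fin r → ℤ[X], US d f → ∀ X A D : ℕ, X₀ ≤ X → Real.log X ^ B ≤ D →
      ((APs k D (Pf f A X)).card : ℝ) ≤ C * (X * D * V f (1 / 4) X ^ k) := by
  obtain ⟨C, hC, B, X₁, h1⟩ := up r d k hk (1 / 4) (by norm_num)
  obtain ⟨X₂, h2⟩ := small_ok r d k k 1 one_pos
  refine ⟨C + 1, by positivity, B, max X₁ X₂, fun f hadm X A D hX hD => ?_⟩
  have h4 := APs_diff k D (Pf f A X) (Ef f A X) hk
  have h5 := h1 f hadm X A D (by omega) hD (Pf f A X \ Ef f A X)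
    (sdiff_subset.trans (filter_subset _ _)) (fun n hn => by
      rw [Finset.mem_sdiff] at hn
      exact rgh_big hn.1 hn.2)
  have h6 := h2 X (by omega) f hadm A
  have h8 : ((APs k D (Pf f A X)).card : ℝ) ≤
      ((APs k D (Pf f A X \ Ef f A X)).card : ℝ) + k * (Ef f A X).card * D := by exact_mod_cast h4
  have h9 : (k : ℝ) * (Ef f A X).card * D ≤ 1 * (X * V f (1 / 4) X ^ k) * D := by
    apply mul_le_mul_of_nonneg_right _ (Nat.cast_nonneg _)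
    refine le_trans ?_ h6
    apply mul_le_mul_of_nonneg_right _ (Nat.cast_nonneg _)
    linarith
  calc ((APs k D (Pf f A X)).card : ℝ) ≤ C * (X * D * V f (1 / 4) X ^ k) +
        1 * (X * V f (1 / 4) X ^ k) * D := by linarith
    _ = _ := by ring

open Classical in
theorem prime_dn (r d k : ℕ) (hk : 1 ≤ k) (δ : ℝ) (hδ : 0 < δ) :
    ∃ c₀ : ℝ, 0 < c₀ ∧ ∃ B X₀ : ℕ, ∀ f : Fin r → ℤ[X], US d f → ∀ X A D : ℕ, X₀ ≤ X →
      Real.log X ^ B ≤ D → D ≤ X →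
      (δ * (X * V f (1 / 4) X) ≤ (Pf f A X).card →
        c₀ * (X * D * V f (1 / 4) X ^ k) ≤ ((APs k D (Pf f A X)).card : ℝ)) ∧
      (δ * (X * D * V f (1 / 4) X ^ k) ≤ ((APs k D (Pf f A X)).card : ℝ) →
        c₀ * (X * V f (1 / 4) X) ≤ (Pf f A X).card) := by
  obtain ⟨c₀, hc₀, B, X₁, h1⟩ := dn r d k hk (1 / 4) (δ / 2) (by norm_num) (by positivity)
  obtain ⟨X₂, h2⟩ := small_ok r d k k (δ / 2) (by positivity)
  obtain ⟨X₃, h3⟩ := small_ok r d 0 1 (δ / 2) (by positivity)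
  refine ⟨c₀, hc₀, B, max X₁ (max X₂ X₃), fun f hadm X A D hX hD hDX => ?_⟩
  have h4 := APs_diff k D (Pf f A X) (Ef f A X) hk
  obtain ⟨h5, h6⟩ := h1 f hadm X A D (by omega) hD hDX (Pf f A X \ Ef f A X)
    (sdiff_subset.trans (filter_subset _ _)) (fun n hn => by
      rw [Finset.mem_sdiff] at hn
      exact rgh_big hn.1 hn.2)
  have g2 := h2 X (by omega) f hadm A
  have g3 := h3 X (by omega) f hadm A
  have hsub : Pf f A X \ Ef f A X ⊆ Pf f A X := sdiff_subset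
  constructor
  · intro h
    have h7 : (Pf f A X).card ≤ (Pf f A X \ Ef f A X).card + (Ef f A X).card := by
      have := card_le_card (show Pf f A X ⊆ (Pf f A X \ Ef f A X) ∪ Ef f A X by
        intro x hx
        rw [mem_union, Finset.mem_sdiff]
        by_cases hE : x ∈ Ef f A X
        · exact Or.inr hE
        · exact Or.inl ⟨hx, hE⟩)
      exact this.trans (card_union_le _ _)
    have h8 : ((Pf f A X).card : ℝ) ≤ ((Pf f A X \ Ef f A X).card : ℝ) + (Ef f A X).card := by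
      exact_mod_cast h7
    have h9 := h5 (by
      rw [pow_one] at g3
      push_cast at g3
      linarith)
    refine h9.trans ?_
    exact_mod_cast card_le_card (APs_mono k D hsub)
  · intro h
    have h8 : ((APs k D (Pf f A X)).card : ℝ) ≤
      ((APs k D (Pf f A X \ Ef f A X)).card : ℝ) + k * (Ef f A X).card * D := by exact_mod_cast h4
    have h9 : (k : ℝ) * (Ef f A X).card * D ≤ δ / 2 * (X * V f (1 / 4) X ^ k) * D := by
      apply mul_le_mul_of_nonneg_right _ (Nat.cast_nonneg _)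
      refine le_trans ?_ g2
      apply mul_le_mul_of_nonneg_right _ (Nat.cast_nonneg _)
      linarith
    have h13 := h6 (by
      have : δ * (X * D * V f (1 / 4) X ^ k) = δ / 2 * (X * D * V f (1 / 4) X ^ k) +
        δ / 2 * (X * V f (1 / 4) X ^ k) * D := by ring
      linarith)
    refine h13.trans ?_
    exact_mod_cast card_le_card hsub

/-- the four statements, for families of descriptions of the sets -/
theorem transfer (r d : ℕ) {Θ : Type} (F : Θ → Fin r → ℤ[X]) (H : Θ → Prop) (hF : ∀ θ, H θ → US d (F θ))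
    (R : Θ → ℝ → ℕ → ℕ → Prop) (T : Θ → ℕ → ℕ → Finset ℕ) (W : Θ → ℝ → ℕ → ℝ)
    (hR : ∀ θ, H θ → ∀ κ N n, R θ κ N n → Rgh (F θ) κ N n)
    (hT : ∀ θ, H θ → ∀ A N n, n ∈ T θ A N ↔ (A < n ∧ n ≤ A + N) ∧ ∀ i, ((F θ i).eval (n : ℤ)).natAbs.Prime)
    (hW : ∀ θ, H θ → ∀ κ N, W θ κ N = V (F θ) κ N) (k : ℕ) (hk : 1 ≤ k) :
    (∀ κ : ℝ, 0 < κ → ∃ C : ℝ, 0 < C ∧ ∃ B N₀ : ℕ, ∀ θ, H θ → ∀ N A D : ℕ, N₀ ≤ N →
      Real.log N ^ B ≤ D → ∀ S : Finset ℕ, S ⊆ Ioc A (A + N) → (∀ n ∈ S, R θ κ N n) →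
        ((APs k D S).card : ℝ) ≤ C * (N * D * W θ κ N ^ k)) ∧
    (∀ κ δ : ℝ, 0 < κ → 0 < δ → ∃ c₀ : ℝ, 0 < c₀ ∧ ∃ B N₀ : ℕ, ∀ θ, H θ → ∀ N A D : ℕ, N₀ ≤ N →
      Real.log N ^ B ≤ D → D ≤ N → ∀ S : Finset ℕ, S ⊆ Ioc A (A + N) → (∀ n ∈ S, R θ κ N n) →
        (δ * (N * W θ κ N) ≤ S.card → c₀ * (N * D * W θ κ N ^ k) ≤ ((APs k D S).card : ℝ)) ∧
        (δ * (N * D * W θ κ N ^ k) ≤ ((APs k D S).card : ℝ) → c₀ * (N * W θ κ N) ≤ S.card)) ∧
    (∃ C : ℝ, 0 < C ∧ ∃ B N₀ : ℕ, ∀ θ, H θ → ∀ N A D : ℕ, N₀ ≤ N → Real.log N ^ B ≤ D →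
      ((APs k D (T θ A N)).card : ℝ) ≤ C * (N * D * W θ (1 / 4) N ^ k)) ∧
    (∀ δ : ℝ, 0 < δ → ∃ c₀ : ℝ, 0 < c₀ ∧ ∃ B N₀ : ℕ, ∀ θ, H θ → ∀ N A D : ℕ, N₀ ≤ N →
      Real.log N ^ B ≤ D → D ≤ N →
      (δ * (N * W θ (1 / 4) N) ≤ (T θ A N).card →
        c₀ * (N * D * W θ (1 / 4) N ^ k) ≤ ((APs k D (T θ A N)).card : ℝ)) ∧
      (δ * (N * D * W θ (1 / 4) N ^ k) ≤ ((APs k D (T θ A N)).card : ℝ) →
        c₀ * (N * W θ (1 / 4) N) ≤ (T θ A N).card)) := by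
  have eT : ∀ θ, H θ → ∀ A N, T θ A N = Pf (F θ) A N := by
    intro θ hθ A N
    ext n
    unfold Pf
    rw [hT θ hθ, mem_filter, mem_Ioc]
  refine ⟨?_, ?_, ?_, ?_⟩
  · intro κ hκ
    obtain ⟨C, hC, B, N₀, h⟩ := up r d k hk κ hκ
    refine ⟨C, hC, B, N₀, fun θ hθ N A D hN hD S hS hRS => ?_⟩
    rw [hW θ hθ]
    exact h (F θ) (hF θ hθ) N A D hN hD S hS (fun n hn => hR θ hθ κ N n (hRS n hn))
  · intro κ δ hκ hδ
    obtain ⟨c₀, hc, B, N₀, h⟩ := dn r d k hk κ δ hκ hδ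
    refine ⟨c₀, hc, B, N₀, fun θ hθ N A D hN hD hDN S hS hRS => ?_⟩
    rw [hW θ hθ]
    exact h (F θ) (hF θ hθ) N A D hN hD hDN S hS (fun n hn => hR θ hθ κ N n (hRS n hn))
  · obtain ⟨C, hC, B, N₀, h⟩ := prime_up r d k hk
    refine ⟨C, hC, B, N₀, fun θ hθ N A D hN hD => ?_⟩
    rw [hW θ hθ, eT θ hθ]
    exact h (F θ) (hF θ hθ) N A D hN hD
  · intro δ hδ
    obtain ⟨c₀, hc, B, N₀, h⟩ := prime_dn r d k hk δ hδ
    refine ⟨c₀, hc, B, N₀, fun θ hθ N A D hN hD hDN => ?_⟩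
    rw [hW θ hθ, eT θ hθ]
    exact h (F θ) (hF θ hθ) N A D hN hD hDN

/-- the product written out -/
theorem V_eq (f : Fin r → ℤ[X]) (κ : ℝ) (N : ℕ) (om : ℕ → ℕ) (h : ∀ p, p.Prime → om p = (ZZ f p).card) :
    ∏ p ∈ (Icc 1 ⌊(N : ℝ) ^ κ⌋₊).filter Nat.Prime, (1 - (om p : ℝ) / p) = V f κ N := by
  unfold V VV
  apply prod_congr
  · ext q
    unfold Pr
    rw [mem_filter, mem_filter, mem_Ioc, mem_Icc]
    constructor
    · rintro ⟨⟨a, b⟩, c⟩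
      exact ⟨⟨c.pos, b⟩, c⟩
    · rintro ⟨⟨a, b⟩, c⟩
      exact ⟨⟨c.pos, b⟩, c⟩
  · intro q hq
    rw [h q (mem_filter.1 hq).2]

end Pool.Agent.V11249.NP.UniG
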