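import Pool.Agent.V11249.NP.UniG

/-!
# The sieve product of a fixed system
-/

set_option autoImplicit false

namespace Pool.Agent.V11249.NP.UniG

open Polynomial Finset
open Pool.Agent.W123.RU.Poly (Sys)

/-- for a fixed system of `r` distinct irreducible polynomials the sieve product has the order `1 / log ^ r` -/
theorem fixed {r : ℕ} (f : Fin r → ℤ[X]) (hf : Sys f) (κ : ℝ) (hκ : 0 < κ) :
    ∃ v C : ℝ, 0 < v ∧ 0 < C ∧ ∃ N₀ : ℕ, ∀ N : ℕ, N₀ ≤ N →
      v / Real.log N ^ r ≤ V f κ N ∧ V f κ N ≤ C / Real.log N ^ r := by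
  have h := Pool.Agent.V11249.NP.V_two f hf κ hκ
  rw [Fintype.card_fin] at h
  exact h

end Pool.Agent.V11249.NP.UniG
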