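import Pool.Agent.Y843.AC.Top
import Pool.Agent.W123.RU.PolyV

/-!
# Arithmetic progressions in dense sets of integers at which a system of polynomials is free of small primes
-/

set_option autoImplicit false
set_option linter.unusedSectionVars false

namespace Pool.Agent.V11249.NP

open Polynomial Finset Filter
open Pool.Agent.W123.RP Pool.Agent.H373R2.T7 Pool.Agent.W123.RU Pool.Agent.W123.RU.Poly
open Pool.Agent.Y843.HS (Pr VV)
open Pool.Agent.Y843.AC (APs OK Av)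

variable {ι : Type} [Fintype ι]

/-- all prime factors of all the values at `n` are larger than `X ^ κ` -/
def Rgh (f : ι → ℤ[X]) (κ : ℝ) (X n : ℕ) : Prop :=
  ∀ i, ∀ p : ℕ, p.Prime → (p : ℤ) ∣ (f i).eval (n : ℤ) → (X : ℝ) ^ κ < p

open Classical in
/-- the classes -/
noncomputable def ZZ (f : ι → ℤ[X]) (p : ℕ) : Finset ℕ := (range p).filter (fun r => Q f p r)

theorem ZZ_card (f : ι → ℤ[X]) (p : ℕ) : (ZZ f p).card = nuB (Q f) p := rfl

theorem VV_eq (f : ι → ℤ[X]) (y : ℕ) : VV (ZZ f) 0 y = Vq (Q f) y := by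
  unfold VV Vq
  apply prod_congr
  · ext q
    unfold Pr
    rw [mem_filter, mem_Ioc, mem_pz]
    constructor
    · rintro ⟨⟨a, b⟩, c⟩
      exact ⟨b, c⟩
    · rintro ⟨b, c⟩
      exact ⟨⟨c.pos, b⟩, c⟩
  · intro q _
    rw [ZZ_card]

theorem ok (f : ι → ℤ[X]) (hf : Sys f) : ∃ c : ℕ, ∀ (κ : ℝ) (X : ℕ), OK c κ X (ZZ f) := by
  classical
  obtain ⟨c, -, hc⟩ := exists_c f hf
  refine ⟨c, fun κ X p hp _ => ⟨hc.few p hp, ?_, ?_⟩⟩
  · rw [ZZ_card]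
    exact adm f hf p hp
  · intro x hx
    unfold ZZ at hx
    rw [mem_filter, mem_range] at hx
    exact hx.1

theorem av_iff (f : ι → ℤ[X]) (κ : ℝ) (X n : ℕ) : Av κ X (ZZ f) n ↔ Rgh f κ X n := by
  classical
  unfold Av Rgh ZZ
  constructor
  · intro h i p hp hd
    by_contra hcon
    push Not at hcon
    apply h p hp hcon
    rw [mem_filter, mem_range]
    exact ⟨Nat.mod_lt _ hp.pos, (per f p n).1 ⟨i, hd⟩⟩
  · intro h p hp hpX hcon
    rw [mem_filter] at hcon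
    obtain ⟨i, hi⟩ := (per f p n).2 hcon.2
    have := h i p hp hi
    linarith

/-- the sieve product up to `X ^ κ` -/
theorem V_two (f : ι → ℤ[X]) (hf : Sys f) (κ : ℝ) (hκ : 0 < κ) : ∃ v C : ℝ, 0 < v ∧ 0 < C ∧ ∃ X₀ : ℕ,
    ∀ X : ℕ, X₀ ≤ X → v / Real.log X ^ (Fintype.card ι) ≤ VV (ZZ f) 0 ⌊(X : ℝ) ^ κ⌋₊ ∧
      VV (ZZ f) 0 ⌊(X : ℝ) ^ κ⌋₊ ≤ C / Real.log X ^ (Fintype.card ι) := by
  obtain ⟨v, C, hv, hC, h⟩ := V_bounds f hf
  have e1 : ∀ᶠ X : ℕ in atTop, (4 : ℝ) ≤ (X : ℝ) ^ (κ / 2) :=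
    ((tendsto_rpow_atTop (show (0 : ℝ) < κ / 2 by positivity)).comp
      tendsto_natCast_atTop_atTop).eventually (eventually_ge_atTop 4)
  obtain ⟨X₁, h1⟩ := eventually_atTop.1 e1
  refine ⟨v / κ ^ (Fintype.card ι), C * (2 / κ) ^ (Fintype.card ι), by positivity, by positivity,
    max X₁ 3, fun X hX => ?_⟩
  have hX3 : 3 ≤ X := (le_max_right _ _).trans hX
  have hX0 : (0 : ℝ) < X := by exact_mod_cast (by omega : 0 < X)
  have hl : 0 < Real.log X := Real.log_pos (by exact_mod_cast (by omega : 1 < X))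
  have h2 := h1 X ((le_max_left _ _).trans hX)
  have h3 : (X : ℝ) ^ κ = (X : ℝ) ^ (κ / 2) * (X : ℝ) ^ (κ / 2) := by
    rw [← Real.rpow_add hX0]
    congr 1
    ring
  have h4 : (X : ℝ) ^ κ < (⌊(X : ℝ) ^ κ⌋₊ : ℝ) + 1 := Nat.lt_floor_add_one _
  have h5 : (X : ℝ) ^ (κ / 2) ≤ (⌊(X : ℝ) ^ κ⌋₊ : ℝ) := by nlinarith
  have h6 : (⌊(X : ℝ) ^ κ⌋₊ : ℝ) ≤ (X : ℝ) ^ κ := Nat.floor_le (by positivity)
  have hy3 : 3 ≤ ⌊(X : ℝ) ^ κ⌋₊ := by
    have : (3 : ℝ) ≤ (⌊(X : ℝ) ^ κ⌋₊ : ℝ) := by linarith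
    exact_mod_cast this
  have hy0 : (0 : ℝ) < (⌊(X : ℝ) ^ κ⌋₊ : ℝ) := by linarith
  have l1 : κ / 2 * Real.log X ≤ Real.log (⌊(X : ℝ) ^ κ⌋₊ : ℝ) := by
    rw [← Real.log_rpow hX0]
    exact Real.log_le_log (by positivity) h5
  have l2 : Real.log (⌊(X : ℝ) ^ κ⌋₊ : ℝ) ≤ κ * Real.log X := by
    rw [← Real.log_rpow hX0]
    exact Real.log_le_log hy0 h6
  have l0 : 0 < Real.log (⌊(X : ℝ) ^ κ⌋₊ : ℝ) := lt_of_lt_of_le (by positivity) l1
  obtain ⟨g1, g2⟩ := h _ hy3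
  rw [VV_eq]
  constructor
  · refine le_trans ?_ g1
    rw [div_div, ← mul_pow]
    apply div_le_div_of_nonneg_left hv.le (by positivity)
    exact pow_le_pow_left₀ l0.le l2 _
  · refine g2.trans ?_
    have : C * (2 / κ) ^ (Fintype.card ι) / Real.log X ^ (Fintype.card ι) =
        C / (κ / 2 * Real.log X) ^ (Fintype.card ι) := by
      rw [mul_pow, div_pow, div_pow]
      field_simp
    rw [this]
    apply div_le_div_of_nonneg_left hC.le (by positivity)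
    exact pow_le_pow_left₀ (by positivity) l1 _

theorem up (f : ι → ℤ[X]) (hf : Sys f) (k : ℕ) (hk : 1 ≤ k) (κ : ℝ) (hκ : 0 < κ) :
    ∃ C : ℝ, 0 < C ∧ ∃ B X₀ : ℕ, ∀ X A D : ℕ, X₀ ≤ X → Real.log X ^ B ≤ D → ∀ S : Finset ℕ,
      S ⊆ Ioc A (A + X) → (∀ n ∈ S, Rgh f κ X n) →
      ((APs k D S).card : ℝ) ≤ C * (X * D / Real.log X ^ (Fintype.card ι * k)) := by
  obtain ⟨c, hc⟩ := ok f hf
  obtain ⟨v, V, hv, hV, X₁, h1⟩ := V_two f hf κ hκ
  obtain ⟨C, hC, B, X₂, h2⟩ := Pool.Agent.Y843.AC.upa_all c k κ hk hκ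
  refine ⟨C * V ^ k, by positivity, B, max (max X₁ X₂) 2, fun X A D hX hD S hS hR => ?_⟩
  have hl : 0 < Real.log X := Real.log_pos (by exact_mod_cast (by omega : 1 < X))
  obtain ⟨g1, g2⟩ := h1 X (by omega)
  have g0 : 0 ≤ VV (ZZ f) 0 ⌊(X : ℝ) ^ κ⌋₊ := le_trans (by positivity) g1
  refine (h2 X A D (by omega) hD (ZZ f) (hc κ X) S hS (fun n hn => (av_iff f κ X n).2 (hR n hn))).trans ?_
  calc C * X * D * VV (ZZ f) 0 ⌊(X : ℝ) ^ κ⌋₊ ^ k ≤ C * X * D * (V / Real.log X ^ (Fintype.card ι)) ^ k := by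
        gcongr
    _ = _ := by
        rw [div_pow, ← pow_mul]
        ring

theorem dn (f : ι → ℤ[X]) (hf : Sys f) (k : ℕ) (hk : 1 ≤ k) (κ δ : ℝ) (hκ : 0 < κ) (hδ : 0 < δ) :
    ∃ c : ℝ, 0 < c ∧ ∃ B X₀ : ℕ, ∀ X A D : ℕ, X₀ ≤ X → Real.log X ^ B ≤ D → D ≤ X → ∀ S : Finset ℕ,
      S ⊆ Ioc A (A + X) → (∀ n ∈ S, Rgh f κ X n) →
      (δ * (X / Real.log X ^ (Fintype.card ι)) ≤ S.card →
        c * (X * D / Real.log X ^ (Fintype.card ι * k)) ≤ ((APs k D S).card : ℝ)) ∧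
      (δ * (X * D / Real.log X ^ (Fintype.card ι * k)) ≤ ((APs k D S).card : ℝ) →
        c * (X / Real.log X ^ (Fintype.card ι)) ≤ S.card) := by
  obtain ⟨c, hc⟩ := ok f hf
  obtain ⟨v, V, hv, hV, X₁, h1⟩ := V_two f hf κ hκ
  obtain ⟨c₁, hc₁, B₁, X₂, h2⟩ := Pool.Agent.Y843.AC.cnt_all c k κ (δ / V) hk hκ (by positivity)
  obtain ⟨c₂, hc₂, B₂, X₃, h3⟩ := Pool.Agent.Y843.AC.conv_all c k κ (δ / V ^ k) hk hκ (by positivity)
  refine ⟨min (c₁ * v ^ k) (c₂ * v), by positivity, max B₁ B₂, max (max X₁ X₂) (max X₃ 3),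
    fun X A D hX hD hDX S hS hR => ?_⟩
  have hX3 : (3 : ℝ) ≤ X := by exact_mod_cast (by omega : 3 ≤ X)
  have hl1 : 1 ≤ Real.log X := by
    rw [Real.le_log_iff_exp_le (by linarith)]
    have := Real.exp_one_lt_d9
    linarith
  have hl : 0 < Real.log X := by linarith
  have hD1 : Real.log X ^ B₁ ≤ D := (pow_le_pow_right₀ hl1 (le_max_left _ _)).trans hD
  have hD2 : Real.log X ^ B₂ ≤ D := (pow_le_pow_right₀ hl1 (le_max_right _ _)).trans hD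
  obtain ⟨g1, g2⟩ := h1 X (by omega)
  have g0 : 0 ≤ VV (ZZ f) 0 ⌊(X : ℝ) ^ κ⌋₊ := le_trans (by positivity) g1
  have hAv : ∀ n ∈ S, Av κ X (ZZ f) n := fun n hn => (av_iff f κ X n).2 (hR n hn)
  constructor
  · intro h
    have h4 := h2 X A D (by omega) hD1 hDX (ZZ f) (hc κ X) S hS hAv (by
      refine le_trans ?_ h
      calc δ / V * X * VV (ZZ f) 0 ⌊(X : ℝ) ^ κ⌋₊ ≤ δ / V * X * (V / Real.log X ^ (Fintype.card ι)) := by gcongr
        _ = _ := by field_simp)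
    refine le_trans ?_ h4
    calc min (c₁ * v ^ k) (c₂ * v) * (X * D / Real.log X ^ (Fintype.card ι * k)) ≤
          (c₁ * v ^ k) * (X * D / Real.log X ^ (Fintype.card ι * k)) := by
          apply mul_le_mul_of_nonneg_right (min_le_left _ _) (by positivity)
      _ = c₁ * X * D * (v / Real.log X ^ (Fintype.card ι)) ^ k := by
          rw [div_pow, ← pow_mul]
          ring
      _ ≤ _ := by gcongr
  · intro h
    have h4 := h3 X A D (by omega) hD2 (ZZ f) (hc κ X) S hS hAv (by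
      refine le_trans ?_ h
      calc δ / V ^ k * X * D * VV (ZZ f) 0 ⌊(X : ℝ) ^ κ⌋₊ ^ k ≤
            δ / V ^ k * X * D * (V / Real.log X ^ (Fintype.card ι)) ^ k := by gcongr
        _ = _ := by
            rw [div_pow, ← pow_mul]
            field_simp)
    refine le_trans ?_ h4
    calc min (c₁ * v ^ k) (c₂ * v) * (X / Real.log X ^ (Fintype.card ι)) ≤
          (c₂ * v) * (X / Real.log X ^ (Fintype.card ι)) := by
          apply mul_le_mul_of_nonneg_right (min_le_right _ _) (by positivity)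
      _ = c₂ * X * (v / Real.log X ^ (Fintype.card ι)) := by ring
      _ ≤ _ := by gcongr

end Pool.Agent.V11249.NP
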