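import Pool.Agent.V11249.NP.UniG

/-!
# Progressions in the set of the Goldbach representations of an even number, uniformly
-/

set_option autoImplicit false

namespace Pool.Agent.V11249.NP.Gold

open Polynomial Finset

/-- the system `n`, `M - n` -/
noncomputable def F (M : ℕ) : Fin 2 → ℤ[X] := ![X, C (M : ℤ) - X]

theorem ev0 (M : ℕ) (n : ℤ) : (F M 0).eval n = n := by simp [F]

theorem ev1 (M : ℕ) (n : ℤ) : (F M 1).eval n = M - n := by simp [F]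

theorem us {M : ℕ} (h : Even M) : UniG.US 1 (F M) := by
  constructor
  · intro i
    fin_cases i
    · simp [F]
    · have : (C (M : ℤ) - X : ℤ[X]).natDegree = 1 := by
        have h1 : (C (M : ℤ) - X : ℤ[X]) = -(X - C (M : ℤ)) := by ring
        rw [h1, natDegree_neg, natDegree_X_sub_C]
      show 1 ≤ (C (M : ℤ) - X : ℤ[X]).natDegree ∧ (C (M : ℤ) - X : ℤ[X]).natDegree ≤ 1
      rw [this]
      exact ⟨le_rfl, le_rfl⟩
  · intro p hp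
    by_cases h2 : p = 2
    · refine ⟨1, fun i => ?_⟩
      obtain ⟨m, hm⟩ := h
      subst h2
      fin_cases i
      · show ¬ ((2 : ℕ) : ℤ) ∣ (F M 0).eval ((1 : ℕ) : ℤ)
        rw [ev0]
        norm_num
      · show ¬ ((2 : ℕ) : ℤ) ∣ (F M 1).eval ((1 : ℕ) : ℤ)
        rw [ev1]
        push_cast
        omega
    · have hp3 : 3 ≤ p := by
        have := hp.two_le
        omega
      have a1 : ¬ (p : ℤ) ∣ ((1 : ℕ) : ℤ) := by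
        intro hd
        have := Nat.le_of_dvd one_pos (Int.natCast_dvd_natCast.1 hd)
        omega
      have a2 : ¬ (p : ℤ) ∣ ((2 : ℕ) : ℤ) := by
        intro hd
        have := Nat.le_of_dvd two_pos (Int.natCast_dvd_natCast.1 hd)
        omega
      by_cases h1 : (p : ℤ) ∣ (M : ℤ) - 1
      · refine ⟨2, fun i => ?_⟩
        fin_cases i
        · show ¬ (p : ℤ) ∣ (F M 0).eval ((2 : ℕ) : ℤ)
          rw [ev0]
          exact a2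
        · show ¬ (p : ℤ) ∣ (F M 1).eval ((2 : ℕ) : ℤ)
          rw [ev1]
          intro hd
          apply a1
          have := dvd_sub h1 hd
          have e : (M : ℤ) - 1 - ((M : ℤ) - ((2 : ℕ) : ℤ)) = ((1 : ℕ) : ℤ) := by
            push_cast
            ring
          rwa [e] at this
      · refine ⟨1, fun i => ?_⟩
        fin_cases i
        · show ¬ (p : ℤ) ∣ (F M 0).eval ((1 : ℕ) : ℤ)
          rw [ev0]
          exact a1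
        · show ¬ (p : ℤ) ∣ (F M 1).eval ((1 : ℕ) : ℤ)
          rw [ev1]
          push_cast
          exact h1

theorem card_ZZ (M p : ℕ) (hp : p.Prime) : (if p ∣ M then 1 else 2) = (UniG.ZZ (F M) p).card := by
  classical
  have h0 : UniG.ZZ (F M) p = {0, M % p} := by
    ext x
    rw [UniG.mem_ZZ, mem_insert, mem_singleton, Fin.exists_fin_two, ev0, ev1, Int.natCast_dvd_natCast]
    constructor
    · rintro ⟨h1, h2 | h2⟩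
      · left
        exact Nat.eq_zero_of_dvd_of_lt h2 h1
      · right
        have h3 : x ≡ M [MOD p] := (Nat.modEq_iff_dvd).2 h2
        unfold Nat.ModEq at h3
        rw [Nat.mod_eq_of_lt h1] at h3
        exact h3
    · rintro (h | h)
      · subst h
        exact ⟨hp.pos, Or.inl (dvd_zero p)⟩
      · subst h
        refine ⟨Nat.mod_lt _ hp.pos, Or.inr ?_⟩
        exact (Nat.modEq_iff_dvd).1 (Nat.mod_modEq M p)
  rw [h0]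
  split_ifs with h
  · rw [Nat.mod_eq_zero_of_dvd h]
    simp
  · rw [card_pair]
    intro h2
    exact h (Nat.dvd_of_mod_eq_zero h2.symm)

/-- the sieve product -/
noncomputable def V (M : ℕ) (κ : ℝ) (N : ℕ) : ℝ :=
  ∏ p ∈ (Icc 1 ⌊(N : ℝ) ^ κ⌋₊).filter Nat.Prime, (1 - ((if p ∣ M then 1 else 2 : ℕ) : ℝ) / p)

theorem all (R : ℕ → ℝ → ℕ → ℕ → Prop) (T : ℕ → ℕ → ℕ → Finset ℕ) (W : ℕ → ℝ → ℕ → ℝ)
    (hR : ∀ M, Even M → ∀ κ N n, R M κ N n → ∀ p : ℕ, p.Prime → (p : ℤ) ∣ (n : ℤ) * ((M : ℤ) - n) → (N : ℝ) ^ κ < p)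
    (hT : ∀ M, Even M → ∀ A N n, n ∈ T M A N ↔ (A < n ∧ n ≤ A + N) ∧ n.Prime ∧ ((M : ℤ) - n).natAbs.Prime)
    (hW : ∀ M κ N, W M κ N = V M κ N) (k : ℕ) (hk : 1 ≤ k) :
    (∀ κ : ℝ, 0 < κ → ∃ C : ℝ, 0 < C ∧ ∃ B N₀ : ℕ, ∀ M, Even M → ∀ N A D : ℕ, N₀ ≤ N →
      Real.log N ^ B ≤ D → ∀ S : Finset ℕ, S ⊆ Ioc A (A + N) → (∀ n ∈ S, R M κ N n) →
        ((Pool.Agent.Y843.AC.APs k D S).card : ℝ) ≤ C * (N * D * W M κ N ^ k)) ∧
    (∀ κ δ : ℝ, 0 < κ → 0 < δ → ∃ c₀ : ℝ, 0 < c₀ ∧ ∃ B N₀ : ℕ, ∀ M, Even M → ∀ N A D : ℕ, N₀ ≤ N →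
      Real.log N ^ B ≤ D → D ≤ N → ∀ S : Finset ℕ, S ⊆ Ioc A (A + N) → (∀ n ∈ S, R M κ N n) →
        (δ * (N * W M κ N) ≤ S.card → c₀ * (N * D * W M κ N ^ k) ≤ ((Pool.Agent.Y843.AC.APs k D S).card : ℝ)) ∧
        (δ * (N * D * W M κ N ^ k) ≤ ((Pool.Agent.Y843.AC.APs k D S).card : ℝ) → c₀ * (N * W M κ N) ≤ S.card)) ∧
    (∃ C : ℝ, 0 < C ∧ ∃ B N₀ : ℕ, ∀ M, Even M → ∀ N A D : ℕ, N₀ ≤ N → Real.log N ^ B ≤ D →
      ((Pool.Agent.Y843.AC.APs k D (T M A N)).card : ℝ) ≤ C * (N * D * W M (1 / 4) N ^ k)) ∧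
    (∀ δ : ℝ, 0 < δ → ∃ c₀ : ℝ, 0 < c₀ ∧ ∃ B N₀ : ℕ, ∀ M, Even M → ∀ N A D : ℕ, N₀ ≤ N →
      Real.log N ^ B ≤ D → D ≤ N →
      (δ * (N * W M (1 / 4) N) ≤ (T M A N).card →
        c₀ * (N * D * W M (1 / 4) N ^ k) ≤ ((Pool.Agent.Y843.AC.APs k D (T M A N)).card : ℝ)) ∧
      (δ * (N * D * W M (1 / 4) N ^ k) ≤ ((Pool.Agent.Y843.AC.APs k D (T M A N)).card : ℝ) →
        c₀ * (N * W M (1 / 4) N) ≤ (T M A N).card)) := by
  refine UniG.transfer 2 1 F Even (fun M h => us h) R T W ?_ ?_ ?_ k hk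
  · intro M hM κ N n h i p hp hd
    refine hR M hM κ N n h p hp ?_
    fin_cases i
    · have : (p : ℤ) ∣ (F M 0).eval (n : ℤ) := hd
      rw [ev0] at this
      exact this.mul_right _
    · have : (p : ℤ) ∣ (F M 1).eval (n : ℤ) := hd
      rw [ev1] at this
      exact this.mul_left _
  · intro M hM A N n
    rw [hT M hM, Fin.forall_fin_two, ev0, ev1, Int.natAbs_natCast]
  · intro M hM κ N
    rw [hW]
    exact UniG.V_eq (F M) κ N _ (fun p hp => card_ZZ M p hp)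

open Pool.Agent.Y843.AC (APs) in
/-- the same for windows inside `[0, M]`, for a family of descriptions -/
theorem spec {Θ : Type} (M : Θ → ℕ) (Win : Θ → ℕ → ℕ → Prop) (G : Θ → ℕ → ℕ → Finset ℕ) (W : ℕ → ℝ → ℕ → ℝ)
    (Rg : ℕ → ℝ → ℕ → ℕ → Prop) (hE : ∀ θ A N, Win θ A N → Even (M θ) ∧ A + N ≤ M θ)
    (hG : ∀ θ A N, Win θ A N → 10 ≤ N → G θ A N = (Ioc A (A + N)).filter (fun p => p.Prime ∧ (M θ - p).Prime))
    (hW : ∀ M κ N, W M κ N = V M κ N)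
    (hRg : ∀ M κ N n, Rg M κ N n → ∀ p : ℕ, p.Prime → p ∣ n * (M - n) → (N : ℝ) ^ κ < p) (k : ℕ) (hk : 1 ≤ k) :
    (∀ κ : ℝ, 0 < κ → ∃ C : ℝ, 0 < C ∧ ∃ B N₀ : ℕ, ∀ θ, ∀ N A D : ℕ, Win θ A N → N₀ ≤ N →
      Real.log N ^ B ≤ D → ∀ S : Finset ℕ, S ⊆ Ioc A (A + N) → (∀ n ∈ S, Rg (M θ) κ N n) →
        ((APs k D S).card : ℝ) ≤ C * (N * D * W (M θ) κ N ^ k)) ∧
    (∀ κ δ : ℝ, 0 < κ → 0 < δ → ∃ c₀ : ℝ, 0 < c₀ ∧ ∃ B N₀ : ℕ, ∀ θ, ∀ N A D : ℕ, Win θ A N → N₀ ≤ N →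
      Real.log N ^ B ≤ D → D ≤ N → ∀ S : Finset ℕ, S ⊆ Ioc A (A + N) → (∀ n ∈ S, Rg (M θ) κ N n) →
        (δ * (N * W (M θ) κ N) ≤ S.card → c₀ * (N * D * W (M θ) κ N ^ k) ≤ ((APs k D S).card : ℝ)) ∧
        (δ * (N * D * W (M θ) κ N ^ k) ≤ ((APs k D S).card : ℝ) → c₀ * (N * W (M θ) κ N) ≤ S.card)) ∧
    (∃ C : ℝ, 0 < C ∧ ∃ B N₀ : ℕ, ∀ θ, ∀ N A D : ℕ, Win θ A N → N₀ ≤ N → Real.log N ^ B ≤ D →
      ((APs k D (G θ A N)).card : ℝ) ≤ C * (N * D * W (M θ) (1 / 4) N ^ k)) ∧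
    (∀ δ : ℝ, 0 < δ → ∃ c₀ : ℝ, 0 < c₀ ∧ ∃ B N₀ : ℕ, ∀ θ, ∀ N A D : ℕ, Win θ A N → N₀ ≤ N →
      Real.log N ^ B ≤ D → D ≤ N →
      (δ * (N * W (M θ) (1 / 4) N) ≤ (G θ A N).card →
        c₀ * (N * D * W (M θ) (1 / 4) N ^ k) ≤ ((APs k D (G θ A N)).card : ℝ)) ∧
      (δ * (N * D * W (M θ) (1 / 4) N ^ k) ≤ ((APs k D (G θ A N)).card : ℝ) →
        c₀ * (N * W (M θ) (1 / 4) N) ≤ (G θ A N).card)) := by
  classical
  obtain ⟨a1, a2, a3, a4⟩ := all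
    (fun M κ N n => ∀ p : ℕ, p.Prime → (p : ℤ) ∣ (n : ℤ) * ((M : ℤ) - n) → (N : ℝ) ^ κ < p)
    (fun M A N => (Ioc A (A + N)).filter (fun n : ℕ => n.Prime ∧ ((M : ℤ) - (n : ℤ)).natAbs.Prime)) W
    (fun M _ κ N n h => h) (fun M _ A N n => by rw [mem_filter, mem_Ioc]) hW k hk
  have hS : ∀ θ A N κ, Win θ A N → ∀ S : Finset ℕ, S ⊆ Ioc A (A + N) → (∀ n ∈ S, Rg (M θ) κ N n) → ∀ n ∈ S,
      ∀ p : ℕ, p.Prime → (p : ℤ) ∣ (n : ℤ) * (((M θ : ℕ) : ℤ) - n) → (N : ℝ) ^ κ < p := by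
    intro θ A N κ hw S hS hR n hn p hp hd
    refine hRg _ _ _ _ (hR n hn) p hp ?_
    have h1 := hS hn
    rw [mem_Ioc] at h1
    have h2 := (hE θ A N hw).2
    have e : ((n : ℤ) * (((M θ : ℕ) : ℤ) - n)) = ((n * (M θ - n) : ℕ) : ℤ) := by
      rw [Nat.cast_mul, Nat.cast_sub (by omega)]
    rw [e] at hd
    exact Int.natCast_dvd_natCast.1 hd
  have hT : ∀ θ A N, Win θ A N → 10 ≤ N → G θ A N =
      (Ioc A (A + N)).filter (fun n : ℕ => n.Prime ∧ (((M θ : ℕ) : ℤ) - (n : ℤ)).natAbs.Prime) := by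
    intro θ A N hw h10
    rw [hG θ A N hw h10]
    apply filter_congr
    intro n hn
    rw [mem_Ioc] at hn
    have h2 := (hE θ A N hw).2
    have e : (((M θ : ℕ) : ℤ) - n).natAbs = M θ - n := by omega
    rw [e]
  refine ⟨?_, ?_, ?_, ?_⟩
  · intro κ hκ
    obtain ⟨C, hC, B, N₀, h⟩ := a1 κ hκ
    refine ⟨C, hC, B, N₀, fun θ N A D hw hN hD S hS' hRS => ?_⟩
    exact h (M θ) (hE θ A N hw).1 N A D hN hD S hS' (hS θ A N κ hw S hS' hRS)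
  · intro κ δ hκ hδ
    obtain ⟨c₀, hc, B, N₀, h⟩ := a2 κ δ hκ hδ
    refine ⟨c₀, hc, B, N₀, fun θ N A D hw hN hD hDN S hS' hRS => ?_⟩
    exact h (M θ) (hE θ A N hw).1 N A D hN hD hDN S hS' (hS θ A N κ hw S hS' hRS)
  · obtain ⟨C, hC, B, N₀, h⟩ := a3
    refine ⟨C, hC, B, max N₀ 10, fun θ N A D hw hN hD => ?_⟩
    rw [hT θ A N hw (by omega)]
    exact h (M θ) (hE θ A N hw).1 N A D (by omega) hD
  · intro δ hδ
    obtain ⟨c₀, hc, B, N₀, h⟩ := a4 δ hδ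
    refine ⟨c₀, hc, B, max N₀ 10, fun θ N A D hw hN hD hDN => ?_⟩
    rw [hT θ A N hw (by omega)]
    exact h (M θ) (hE θ A N hw).1 N A D (by omega) hD hDN

/-- the product over the two kinds of primes -/
theorem V_two (M : ℕ) (κ : ℝ) (N : ℕ) :
    (∏ p ∈ (Icc 1 ⌊(N : ℝ) ^ κ⌋₊).filter (fun p => p.Prime ∧ p ∣ M), (1 - 1 / (p : ℝ))) *
      ∏ p ∈ (Icc 1 ⌊(N : ℝ) ^ κ⌋₊).filter (fun p => p.Prime ∧ ¬ p ∣ M), (1 - 2 / (p : ℝ)) = V M κ N := by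
  unfold V
  rw [← filter_filter, ← filter_filter]
  rw [← prod_filter_mul_prod_filter_not ((Icc 1 ⌊(N : ℝ) ^ κ⌋₊).filter Nat.Prime) (fun p => p ∣ M)]
  congr 1
  · apply prod_congr rfl
    intro p hp
    rw [if_pos (mem_filter.1 hp).2]
    norm_num
  · apply prod_congr rfl
    intro p hp
    rw [if_neg (mem_filter.1 hp).2]
    norm_num

end Pool.Agent.V11249.NP.Gold
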