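import Pool.Agent.Y879.PR.Full
import Pool.Agent.V11249.NP.Gen
import Pool.Agent.TH464.PO.QuadAP

/-!
# The law after primes, for a fixed system of polynomials
-/

set_option autoImplicit false

namespace Pool.Agent.V11249.NP

open Polynomial Finset Filter
open Pool.Agent.TH464.PO Pool.Agent.W123.RU.Poly Pool.Agent.W123.RP
open Pool.Agent.H373R2.T7 Pool.Agent.Y879.GL Pool.Agent.Y879.PR

theorem us_of {k : ℕ} (f : Fin k → ℤ[X]) (hf : Sys f) (hT : NoTr f) : ∃ D : ℕ, ∃ N₀ : ℕ, ∀ N : ℕ, N₀ ≤ N →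
    US k D ((N : ℝ) ^ (1 : ℝ)) ((N : ℝ) ^ (1 : ℝ)) f := by
  classical
  set D := univ.sup (fun i => (f i).natDegree) with hD
  set H := univ.sup (fun i => (range (D + 1)).sup (fun n => ((f i).coeff n).natAbs)) with hH
  refine ⟨D, H, fun N hN => ⟨hf.irr, fun i => (hf.deg i).ne', fun i => ?_, ?_, hf.adm, ?_⟩⟩
  · rw [hD]
    exact Finset.le_sup (f := fun i => (f i).natDegree) (mem_univ i)
  · intro i n
    rw [Real.rpow_one]
    by_cases hn : n ≤ D
    · have h1 : ((f i).coeff n).natAbs ≤ H := by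
        have h2 : ((f i).coeff n).natAbs ≤ (range (D + 1)).sup (fun n => ((f i).coeff n).natAbs) :=
          Finset.le_sup (f := fun n => ((f i).coeff n).natAbs) (mem_range.2 (by omega))
        refine h2.trans ?_
        rw [hH]
        exact Finset.le_sup (f := fun i => (range (D + 1)).sup (fun n => ((f i).coeff n).natAbs)) (mem_univ i)
      have h3 : ((((f i).coeff n).natAbs : ℕ) : ℝ) ≤ N := by exact_mod_cast h1.trans hN
      rwa [Nat.cast_natAbs, Int.cast_abs] at h3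
    · have h1 : (f i).coeff n = 0 := by
        apply coeff_eq_zero_of_natDegree_lt
        have : (f i).natDegree ≤ D := by
          rw [hD]
          exact Finset.le_sup (f := fun i => (f i).natDegree) (mem_univ i)
        omega
      rw [h1]
      simp
  · intro i j t ht _ hass
    have hl1 := hf.lead i
    have hcomp : ((f j).comp (X + C (t : ℤ))).leadingCoeff = (f j).leadingCoeff := by
      rw [leadingCoeff_comp (by rw [natDegree_X_add_C]; norm_num), leadingCoeff_X_add_C, one_pow, mul_one]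
    have hl2 := hf.lead j
    rw [← hcomp] at hl2
    obtain ⟨u, hu⟩ := hass
    obtain ⟨c, hc, hcu⟩ := Polynomial.isUnit_iff.1 u.isUnit
    rcases Int.isUnit_iff.1 hc with h1 | h1
    · rw [← hcu, h1] at hu
      simp only [map_one, mul_one] at hu
      exact hT i j t ht hu
    · rw [← hcu, h1] at hu
      have h3 : f i * C (-1 : ℤ) = -f i := by simp
      rw [h3] at hu
      rw [← hu, leadingCoeff_neg] at hl2
      omega

open Classical in
/-- **The law after primes** for a fixed system containing `X` -/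
theorem law {k : ℕ} (f : Fin k → ℤ[X]) (hf : Sys f) (hT : NoTr f) (i0 : Fin k) (h0 : f i0 = X)
    (δ : ℝ) (hδ : 0 < δ) (hδ1 : δ ≤ 1) (x0 ε : ℝ) (hε : 0 < ε) (hε1 : ε ≤ 1) :
    ∃ r0 : ℕ, 2 ≤ r0 ∧ ∀ r : ℕ, r0 ≤ r → ∀ᶠ N : ℕ in atTop, ∀ u Y : ℕ, δ * N ≤ Y → u + Y ≤ N →
      |((Om 1 0 (Q f) ⌊(N : ℝ) ^ (1 / (r : ℝ))⌋₊ u Y).card : ℝ) * Real.log N -
        Y * (Vq (Q f) ⌊(N : ℝ) ^ (1 / (r : ℝ))⌋₊ / Vz ⌊(N : ℝ) ^ (1 / (r : ℝ))⌋₊)| ≤
        ε * (Y * (Vq (Q f) ⌊(N : ℝ) ^ (1 / (r : ℝ))⌋₊ / Vz ⌊(N : ℝ) ^ (1 / (r : ℝ))⌋₊)) ∧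
      ∀ T : ℕ, T * Vq (Q f) ⌊(N : ℝ) ^ (1 / (r : ℝ))⌋₊ ≤ x0 → ∀ B : Finset ℕ,
      |(((Om 1 0 (Q f) ⌊(N : ℝ) ^ (1 / (r : ℝ))⌋₊ u Y).filter
          (fun n => Wc (Sf (Q f) ⌊(N : ℝ) ^ (1 / (r : ℝ))⌋₊) n T ∈ B)).card : ℝ) -
        (Om 1 0 (Q f) ⌊(N : ℝ) ^ (1 / (r : ℝ))⌋₊ u Y).card *
          ∑ j ∈ B, Real.exp (-(T * Vq (Q f) ⌊(N : ℝ) ^ (1 / (r : ℝ))⌋₊)) *
            (T * Vq (Q f) ⌊(N : ℝ) ^ (1 / (r : ℝ))⌋₊) ^ j / j.factorial| ≤
        ε * (Om 1 0 (Q f) ⌊(N : ℝ) ^ (1 / (r : ℝ))⌋₊ u Y).card := by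
  obtain ⟨D, N₁, hus⟩ := us_of f hf hT
  obtain ⟨r0, hr0, h⟩ := prime_full 1 k D squarefree_one 1 1 1 δ one_pos one_pos one_pos hδ hδ1 x0 ε hε hε1
  refine ⟨r0, hr0, fun r hr => ?_⟩
  have hk : 1 ≤ k := by
    have := i0.isLt
    omega
  have hr1 : (0 : ℝ) < 1 / (r : ℝ) := by
    have : 0 < r := by omega
    positivity
  obtain ⟨v, Cv, hv, hCv, N₂, hV⟩ := V_two f hf (1 / (r : ℝ)) hr1
  rw [Fintype.card_fin] at hV
  filter_upwards [h r hr Cv, eventually_ge_atTop (max (max N₁ N₂) 3)] with N hN hNb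
  have hN3 : (3 : ℝ) ≤ N := by exact_mod_cast (by omega : 3 ≤ N)
  have hl1 : 1 ≤ Real.log N := by
    rw [Real.le_log_iff_exp_le (by linarith)]
    have := Real.exp_one_lt_d9
    linarith
  have hVup : Vq (Q f) ⌊(N : ℝ) ^ (1 / (r : ℝ))⌋₊ ≤ Cv / Real.log N := by
    rw [← VV_eq]
    refine (hV N (by omega)).2.trans ?_
    apply div_le_div_of_nonneg_left hCv.le (by positivity)
    calc Real.log N = Real.log N ^ 1 := (pow_one _).symm
      _ ≤ Real.log N ^ k := pow_le_pow_right₀ hl1 hk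
  have hmain := hN f 0 (hus N (by omega)) (Nat.coprime_one_left 0)
    (fun p n hp hd => absurd (Nat.dvd_one.1 hd) hp.one_lt.ne')
    ⟨i0, fun n => by rw [h0]; simp⟩ hVup (by rw [Nat.cast_zero]; positivity) N (by rw [Real.rpow_one])
  exact hmain

open Pool.Agent.TH464.PW (quad quad_eval) in
theorem noTr_quad {r : ℕ} (A B E : Fin r → ℤ)
    (h : ∀ i j, ∀ t : ℤ, 1 ≤ t → ¬ (A i = A j ∧ B i = 2 * A j * t + B j ∧ E i = A j * t ^ 2 + B j * t + E j)) :
    NoTr (fun i => quad (A i) (B i) (E i)) := by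
  intro i j t ht heq
  have ev : ∀ x : ℤ, A i * x ^ 2 + B i * x + E i = A j * (x + t) ^ 2 + B j * (x + t) + E j := by
    intro x
    have h1 := congrArg (fun g => eval x g) heq
    simp only [eval_comp, eval_add, eval_X, eval_C, quad_eval] at h1
    exact h1
  have e0 := ev 0
  have e1 := ev 1
  have e2 := ev (-1)
  apply h i j t (by exact_mod_cast ht)
  refine ⟨by linarith, by linarith, by linarith⟩

end Pool.Agent.V11249.NP
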