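import Pool.Agent.V11249.NP.Law
import Pool.Agent.V11249.NP.Fix

/-!
# Narrow progressions in dense sets of primes with almost prime values
-/

set_option autoImplicit false

namespace Pool.Agent.V11249.NP

open Polynomial Finset Filter
open Pool.Agent.TH464.PO Pool.Agent.W123.RU.Poly Pool.Agent.W123.RP
open Pool.Agent.H373R2.T7 Pool.Agent.Y879.GL Pool.Agent.Y879.PR
open Pool.Agent.Y843.AC (APs)
open Pool.Agent.Y843.HS (VV)

/-- the system `X` -/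
theorem sys_X : Sys (fun _ : Fin 1 => (X : ℤ[X])) := by
  refine ⟨fun _ => irreducible_X, fun _ => ?_, fun _ => ?_, ?_, ?_⟩
  · simp
  · simp
  · intro i j _
    exact Subsingleton.elim i j
  · intro p hp
    refine ⟨1, fun _ h => ?_⟩
    rw [eval_X] at h
    have h1 : p ∣ 1 := by exact_mod_cast h
    exact hp.one_lt.ne' (Nat.dvd_one.1 h1)

theorem Vq_X (y : ℕ) : Vq (Q (fun _ : Fin 1 => (X : ℤ[X]))) y = Vz y := by
  classical
  unfold Vq Vz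
  apply prod_congr rfl
  intro p hp
  obtain ⟨-, hp2⟩ := mem_pz.1 hp
  have h1 : nuB (Q (fun _ : Fin 1 => (X : ℤ[X]))) p = 1 := by
    unfold nuB
    rw [card_eq_one]
    refine ⟨0, ?_⟩
    ext m
    rw [mem_filter, mem_range, mem_singleton]
    unfold Q
    simp only [eval_X, Int.natCast_dvd_natCast]
    constructor
    · rintro ⟨h1, _, h2⟩
      exact Nat.eq_zero_of_dvd_of_lt h2 h1
    · rintro rfl
      exact ⟨hp2.pos, 0, dvd_zero _⟩
  rw [h1, Nat.cast_one]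

/-- Mertens -/
theorem Vz_two (κ : ℝ) (hκ : 0 < κ) : ∃ v C : ℝ, 0 < v ∧ 0 < C ∧ ∃ X₀ : ℕ, ∀ X : ℕ, X₀ ≤ X →
    v / Real.log X ≤ Vz ⌊(X : ℝ) ^ κ⌋₊ ∧ Vz ⌊(X : ℝ) ^ κ⌋₊ ≤ C / Real.log X := by
  obtain ⟨v, C, hv, hC, X₀, h⟩ := V_two (fun _ : Fin 1 => (X : ℤ[X])) sys_X κ hκ
  rw [Fintype.card_fin] at h
  refine ⟨v, C, hv, hC, X₀, fun X hX => ?_⟩
  have h1 := h X hX
  rwa [VV_eq, Vq_X, pow_one] at h1

/-- a bound for the degrees -/
theorem us_fix {g : ℕ} (f : Fin g → ℤ[X]) (hf : Sys f) : ∃ D : ℕ, UniG.US D f := by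
  refine ⟨univ.sup (fun i => (f i).natDegree), fun i => ⟨hf.deg i, ?_⟩, hf.adm⟩
  exact Finset.le_sup (f := fun i => (f i).natDegree) (mem_univ i)

open Classical in
/-- **Narrow progressions** in dense sets of primes with almost prime values -/
theorem narrow {g : ℕ} (f : Fin g → ℤ[X]) (hf : Sys f) (hT : NoTr f) (i0 : Fin g) (h0 : f i0 = X)
    (θ : ℝ) (hθ : 0 < θ) (hθ1 : θ ≤ 1) :
    ∃ r0 : ℕ, 2 ≤ r0 ∧ ∀ r : ℕ, r0 ≤ r → ∃ c₁ c₂ : ℝ, 0 < c₁ ∧ 0 < c₂ ∧ ∀ k : ℕ, 1 ≤ k → ∀ η : ℝ, 0 < η →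
      ∃ c₀ : ℝ, 0 < c₀ ∧ ∃ B : ℕ, ∀ᶠ N : ℕ in atTop, ∀ u Y : ℕ, θ * N ≤ Y → u + Y ≤ N →
        c₁ * Y / Real.log N ^ g ≤ ((Om 1 0 (Q f) ⌊(N : ℝ) ^ (1 / (r : ℝ))⌋₊ u Y).card : ℝ) ∧
        ((Om 1 0 (Q f) ⌊(N : ℝ) ^ (1 / (r : ℝ))⌋₊ u Y).card : ℝ) ≤ c₂ * Y / Real.log N ^ g ∧
        ∀ S : Finset ℕ, S ⊆ Om 1 0 (Q f) ⌊(N : ℝ) ^ (1 / (r : ℝ))⌋₊ u Y →
          η * (Om 1 0 (Q f) ⌊(N : ℝ) ^ (1 / (r : ℝ))⌋₊ u Y).card ≤ S.card →
          ∀ D : ℕ, Real.log N ^ B ≤ D → D ≤ Y →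
            c₀ * Y * D / Real.log N ^ (g * k) ≤ ((APs k D S).card : ℝ) := by
  obtain ⟨r0, hr0', hlaw⟩ := law f hf hT i0 h0 θ hθ hθ1 1 (1 / 2) (by norm_num) (by norm_num)
  refine ⟨r0, hr0', fun r hr => ?_⟩
  have hlaw := hlaw r hr
  have hr0 : (0 : ℝ) < 1 / (r : ℝ) := by
    have : 0 < r := by omega
    positivity
  obtain ⟨v, C, hv, hC, N₁, hV⟩ := V_two f hf (1 / (r : ℝ)) hr0
  rw [Fintype.card_fin] at hV
  obtain ⟨w, W, hw, hW, N₂, hZ⟩ := Vz_two (1 / (r : ℝ)) hr0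
  refine ⟨v / (2 * W), 2 * C / w, by positivity, by positivity, fun k hk η hη => ?_⟩
  obtain ⟨deg, hus⟩ := us_fix f hf
  obtain ⟨c, hc, B, X₀, hdn⟩ := UniG.dn g deg k hk (1 / (r : ℝ)) (η * (v / (2 * W)) / (C * 2 ^ g)) hr0
    (by positivity)
  refine ⟨c * v ^ k, by positivity, B, ?_⟩
  have hbig : ∀ᶠ N : ℕ in atTop, ((max X₀ N₁ : ℕ) : ℝ) ≤ θ * N :=
    (Tendsto.const_mul_atTop hθ tendsto_natCast_atTop_atTop).eventually (eventually_ge_atTop _)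
  have hbig2 : ∀ᶠ N : ℕ in atTop, 1 / θ ^ 2 ≤ (N : ℝ) :=
    tendsto_natCast_atTop_atTop.eventually (eventually_ge_atTop _)
  filter_upwards [hlaw, hbig, hbig2, eventually_ge_atTop (max (max N₁ N₂) 3)] with N hN hb1 hb2 hNb u Y hY huY
  have hN3 : (3 : ℝ) ≤ N := by exact_mod_cast (by omega : 3 ≤ N)
  have hl1 : 1 ≤ Real.log N := by
    rw [Real.le_log_iff_exp_le (by linarith)]
    have := Real.exp_one_lt_d9
    linarith
  have hl0 : 0 < Real.log N := by linarith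
  obtain ⟨hV1, hV2⟩ := hV N (by omega)
  rw [VV_eq] at hV1 hV2
  obtain ⟨hZ1, hZ2⟩ := hZ N (by omega)
  have hYX : max X₀ N₁ ≤ Y := by
    have : ((max X₀ N₁ : ℕ) : ℝ) ≤ Y := hb1.trans hY
    exact_mod_cast this
  have hY0 : (0 : ℝ) < Y := by
    have : 0 < θ * (N : ℝ) := by positivity
    linarith
  have hYN : (Y : ℝ) ≤ N := by exact_mod_cast (by omega : Y ≤ N)
  obtain ⟨hlawN, -⟩ := hN u Y hY huY
  set y := ⌊(N : ℝ) ^ (1 / (r : ℝ))⌋₊ with hy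
  set O := ((Om 1 0 (Q f) y u Y).card : ℝ) with hO
  have hVz : 0 < Vz y := Pool.Agent.H373R2.T7.Vz_pos y
  have hVq0 : 0 ≤ Vq (Q f) y := le_trans (by positivity) hV1
  rw [abs_le] at hlawN
  obtain ⟨ha, hb⟩ := hlawN
  have hZl1 : w ≤ Vz y * Real.log N := by rwa [div_le_iff₀ hl0] at hZ1
  have hZl2 : Vz y * Real.log N ≤ W := by rwa [le_div_iff₀ hl0] at hZ2
  have e1 : (Y : ℝ) * (Vq (Q f) y / Vz y) = Y * Vq (Q f) y / Vz y := by ring
  rw [e1] at ha hb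
  have hlow : v / (2 * W) * Y / Real.log N ^ g ≤ O := by
    have h1 : (1 / 2 : ℝ) * (Y * Vq (Q f) y / Vz y) ≤ O * Real.log N := by linarith
    have h2 : (1 / 2 : ℝ) * (Y * Vq (Q f) y) ≤ O * (Vz y * Real.log N) := by
      have h3 := mul_le_mul_of_nonneg_right h1 hVz.le
      calc (1 / 2 : ℝ) * (Y * Vq (Q f) y) = (1 / 2 : ℝ) * (Y * Vq (Q f) y / Vz y) * Vz y := by
            field_simp
        _ ≤ O * Real.log N * Vz y := h3
        _ = _ := by ring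
    have hO0 : 0 ≤ O := by positivity
    have h4 : (1 / 2 : ℝ) * (Y * Vq (Q f) y) ≤ O * W := h2.trans (mul_le_mul_of_nonneg_left hZl2 hO0)
    have h5 : (1 / 2 : ℝ) * (Y * (v / Real.log N ^ g)) ≤ O * W := by
      refine le_trans ?_ h4
      gcongr
    rw [div_mul_eq_mul_div, div_div, div_le_iff₀ (by positivity)]
    calc v * Y = (1 / 2 : ℝ) * (Y * (v / Real.log N ^ g)) * (2 * Real.log N ^ g) := by field_simp
      _ ≤ O * W * (2 * Real.log N ^ g) := by gcongr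
      _ = _ := by ring
  have hup : O ≤ 2 * C / w * Y / Real.log N ^ g := by
    have h1 : O * Real.log N ≤ (2 : ℝ) * (Y * Vq (Q f) y / Vz y) := by
      have : 0 ≤ Y * Vq (Q f) y / Vz y := by positivity
      linarith
    have h2 : O * (Vz y * Real.log N) ≤ (2 : ℝ) * (Y * Vq (Q f) y) := by
      have h3 := mul_le_mul_of_nonneg_right h1 hVz.le
      calc O * (Vz y * Real.log N) = O * Real.log N * Vz y := by ring
        _ ≤ (2 : ℝ) * (Y * Vq (Q f) y / Vz y) * Vz y := h3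
        _ = _ := by field_simp
    have hO0 : 0 ≤ O := by positivity
    have h4 : O * w ≤ (2 : ℝ) * (Y * Vq (Q f) y) := (mul_le_mul_of_nonneg_left hZl1 hO0).trans h2
    have h5 : O * w ≤ (2 : ℝ) * (Y * (C / Real.log N ^ g)) := by
      refine h4.trans ?_
      gcongr
    rw [div_mul_eq_mul_div, div_div, le_div_iff₀ (by positivity)]
    calc O * (w * Real.log N ^ g) = O * w * Real.log N ^ g := by ring
      _ ≤ (2 : ℝ) * (Y * (C / Real.log N ^ g)) * Real.log N ^ g := by gcongr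
      _ = _ := by field_simp
  refine ⟨hlow, hup, fun S hS hSc D hD hDY => ?_⟩
  -- logarithms
  have hYl : Real.log N ≤ 2 * Real.log Y := by
    have h1 : (N : ℝ) ≤ (Y : ℝ) ^ 2 := by
      have h2 : θ ^ 2 * N ^ 2 ≤ (Y : ℝ) ^ 2 := by
        rw [← mul_pow]
        exact pow_le_pow_left₀ (by positivity) hY 2
      refine le_trans ?_ h2
      rw [div_le_iff₀ (by positivity)] at hb2
      nlinarith
    calc Real.log N ≤ Real.log ((Y : ℝ) ^ 2) := Real.log_le_log (by linarith) h1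
      _ = _ := by rw [Real.log_pow]; norm_num
  have hYl0 : 0 < Real.log Y := by linarith
  have hYN' : Real.log Y ≤ Real.log N := Real.log_le_log hY0 hYN
  obtain ⟨hVY1, hVY2⟩ := hV Y (by omega)
  have hVe : UniG.V f (1 / (r : ℝ)) Y = VV (ZZ f) 0 ⌊(Y : ℝ) ^ (1 / (r : ℝ))⌋₊ := by
    rw [VV_eq]
    unfold UniG.V
    rw [UniG.VV_eq]
  rw [← hVe] at hVY1 hVY2
  have hVup : UniG.V f (1 / (r : ℝ)) Y ≤ C * 2 ^ g / Real.log N ^ g := by
    refine hVY2.trans ?_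
    rw [div_le_div_iff₀ (by positivity) (by positivity)]
    calc C * Real.log N ^ g ≤ C * (2 * Real.log Y) ^ g := by gcongr
      _ = _ := by rw [mul_pow]; ring
  have hVlo : v / Real.log N ^ g ≤ UniG.V f (1 / (r : ℝ)) Y := by
    refine le_trans ?_ hVY1
    gcongr
  have hsub : S ⊆ Ioc u (u + Y) := hS.trans (filter_subset _ _)
  have hrgh : ∀ n ∈ S, Rgh f (1 / (r : ℝ)) Y n := by
    intro n hn i p hp hd
    have h1 := hS hn
    unfold Om at h1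
    rw [mem_filter] at h1
    have h2 := h1.2.2
    by_contra hcon
    rw [not_lt] at hcon
    have h3 : (p : ℝ) ≤ (N : ℝ) ^ (1 / (r : ℝ)) :=
      hcon.trans (Real.rpow_le_rpow hY0.le hYN hr0.le)
    exact h2 p (mem_pz.2 ⟨Nat.le_floor h3, hp⟩) ⟨i, hd⟩
  have hmain := (hdn f hus Y u D (by omega)
    ((pow_le_pow_left₀ hYl0.le hYN' B).trans hD) hDY S hsub hrgh).1 (by
      refine le_trans ?_ hSc
      refine le_trans ?_ (mul_le_mul_of_nonneg_left hlow hη.le)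
      calc η * (v / (2 * W)) / (C * 2 ^ g) * (Y * UniG.V f (1 / (r : ℝ)) Y)
          ≤ η * (v / (2 * W)) / (C * 2 ^ g) * (Y * (C * 2 ^ g / Real.log N ^ g)) := by gcongr
        _ = _ := by field_simp)
  refine le_trans ?_ hmain
  calc c * v ^ k * Y * D / Real.log N ^ (g * k) = c * (Y * D * (v / Real.log N ^ g) ^ k) := by
        rw [div_pow, ← pow_mul]
        ring
    _ ≤ _ := by gcongr

end Pool.Agent.V11249.NP
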