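import Pool.Agent.V11249.NP.Gen

/-!
# Progressions of integers at which all polynomials of a system are prime
-/

set_option autoImplicit false
set_option linter.unusedSectionVars false

namespace Pool.Agent.V11249.NP

open Polynomial Finset Filter
open Pool.Agent.W123.RP Pool.Agent.H373R2.T7 Pool.Agent.W123.RU Pool.Agent.W123.RU.Poly
open Pool.Agent.Y843.AC (APs)

variable {ι : Type} [Fintype ι]

/-- polynomials grow at least linearly -/
theorem grow1 (g : ℤ[X]) (hd : 0 < g.natDegree) (hl : 0 < g.leadingCoeff) :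
    ∀ᶠ n : ℕ in atTop, (n : ℤ) ≤ 2 * g.eval (n : ℤ) := by
  -- `h = 2 g - X` as a real polynomial
  set h : ℝ[X] := (2 * g - X : ℤ[X]).map (Int.castRingHom ℝ) with hh
  have h0 : (2 * g - X : ℤ[X]).natDegree = g.natDegree ∧ 0 < (2 * g - X : ℤ[X]).leadingCoeff := by
    have e1 : (2 * g : ℤ[X]).natDegree = g.natDegree := by
      have : (2 : ℤ[X]) = C 2 := by simp
      rw [this, natDegree_C_mul (by norm_num)]
    have e2 : (2 * g : ℤ[X]).leadingCoeff = 2 * g.leadingCoeff := by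
      have : (2 : ℤ[X]) = C 2 := by simp
      rw [this, leadingCoeff_mul, leadingCoeff_C]
    rcases Nat.lt_or_ge 1 g.natDegree with h1 | h1
    · have h2 : (X : ℤ[X]).natDegree < (2 * g : ℤ[X]).natDegree := by
        rw [e1, natDegree_X]
        exact h1
      constructor
      · rw [natDegree_sub_eq_left_of_natDegree_lt h2, e1]
      · rw [leadingCoeff_sub_of_degree_lt (degree_lt_degree h2), e2]
        omega
    · have h1' : g.natDegree = 1 := by omega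
      have hc : (2 * g - X : ℤ[X]).coeff 1 = 2 * g.leadingCoeff - 1 := by
        rw [coeff_sub, coeff_X_one]
        have : (2 * g : ℤ[X]).coeff 1 = 2 * g.coeff 1 := by
          have : (2 : ℤ[X]) = C 2 := by simp
          rw [this, coeff_C_mul]
        rw [this]
        unfold leadingCoeff
        rw [h1']
      have hne : (2 * g - X : ℤ[X]).coeff 1 ≠ 0 := by rw [hc]; omega
      have hle : (2 * g - X : ℤ[X]).natDegree ≤ 1 := by
        refine (natDegree_sub_le _ _).trans ?_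
        rw [e1, h1', natDegree_X, max_self]
      have hdeg : (2 * g - X : ℤ[X]).natDegree = 1 := le_antisymm hle (le_natDegree_of_ne_zero hne)
      refine ⟨by rw [hdeg, h1'], ?_⟩
      unfold leadingCoeff
      rw [hdeg, hc]
      unfold leadingCoeff
      unfold leadingCoeff at hl
      omega
  have hinj : Function.Injective (Int.castRingHom ℝ) := (Int.castRingHom ℝ).injective_int
  have hdeg : 0 < h.degree := by
    rw [hh, degree_map_eq_of_injective hinj, ← natDegree_pos_iff_degree_pos, h0.1]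
    exact hd
  have hlead : 0 ≤ h.leadingCoeff := by
    rw [hh, leadingCoeff_map_of_injective hinj]
    have := h0.2
    simp only [eq_intCast]
    exact_mod_cast this.le
  have ht := (h.tendsto_atTop_of_leadingCoeff_nonneg hdeg hlead).comp (tendsto_natCast_atTop_atTop (R := ℝ))
  filter_upwards [ht.eventually_ge_atTop 0] with n hn
  have h1 : h.eval (n : ℝ) = (((2 * g - X : ℤ[X]).eval (n : ℤ) : ℤ) : ℝ) := by
    rw [hh, eval_natCast_map]
    simp
  simp only [Function.comp] at hn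
  rw [h1] at hn
  have h2 : 0 ≤ (2 * g - X : ℤ[X]).eval (n : ℤ) := by exact_mod_cast hn
  rw [eval_sub, eval_mul, eval_X] at h2
  simp at h2
  linarith

/-- the `n` in `(A, A + Y]` at which all polynomials have prime values -/
def Pf (f : ι → ℤ[X]) (A Y : ℕ) : Finset ℕ :=
  (Ioc A (A + Y)).filter (fun n => ∀ i, ((f i).eval (n : ℤ)).natAbs.Prime)

theorem mem_Pf (f : ι → ℤ[X]) (A Y n : ℕ) :
    n ∈ Pf f A Y ↔ (A < n ∧ n ≤ A + Y) ∧ ∀ i, ((f i).eval (n : ℤ)).natAbs.Prime := by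
  unfold Pf
  rw [mem_filter, mem_Ioc]

/-- prime values are rough -/
theorem rgh_prime (f : ι → ℤ[X]) (hf : Sys f) : ∃ X₀ : ℕ, ∀ X : ℕ, X₀ ≤ X → ∀ n : ℕ,
    (X : ℝ) ^ (1 / 2 : ℝ) < n → (∀ i, ((f i).eval (n : ℤ)).natAbs.Prime) → Rgh f (1 / 4) X n := by
  have h1 : ∀ᶠ n : ℕ in atTop, ∀ i, (n : ℤ) ≤ 2 * (f i).eval (n : ℤ) := by
    rw [eventually_all]
    intro i
    exact grow1 (f i) (hf.deg i) (hf.lead i)
  obtain ⟨N₀, hN⟩ := eventually_atTop.1 h1
  have e1 : ∀ᶠ X : ℕ in atTop, (max (N₀ : ℝ) 2 + 1 : ℝ) ≤ (X : ℝ) ^ (1 / 4 : ℝ) :=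
    ((tendsto_rpow_atTop (show (0 : ℝ) < 1 / 4 by norm_num)).comp
      tendsto_natCast_atTop_atTop).eventually (eventually_ge_atTop _)
  obtain ⟨X₁, hX₁⟩ := eventually_atTop.1 e1
  refine ⟨max X₁ 1, fun X hX n hn hP => ?_⟩
  have hX0 : (0 : ℝ) < X := by exact_mod_cast (by omega : 0 < X)
  have h2 := hX₁ X (by omega)
  have h3 : (X : ℝ) ^ (1 / 2 : ℝ) = (X : ℝ) ^ (1 / 4 : ℝ) * (X : ℝ) ^ (1 / 4 : ℝ) := by
    rw [← Real.rpow_add hX0]
    norm_num
  have h4 : (N₀ : ℝ) ≤ max (N₀ : ℝ) 2 := le_max_left _ _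
  have h5 : (2 : ℝ) ≤ max (N₀ : ℝ) 2 := le_max_right _ _
  have hnN : N₀ ≤ n := by
    have : (N₀ : ℝ) ≤ n := by nlinarith
    exact_mod_cast this
  intro i p hp hd
  have h6 := hN n hnN i
  have h7 : p = ((f i).eval (n : ℤ)).natAbs :=
    (Nat.prime_dvd_prime_iff_eq hp (hP i)).1 (Int.natCast_dvd.1 hd)
  have h8 : (n : ℤ) ≤ 2 * (p : ℤ) := by
    rw [h7]
    have : (f i).eval (n : ℤ) ≤ (((f i).eval (n : ℤ)).natAbs : ℤ) := Int.le_natAbs
    linarith
  have h9 : (n : ℝ) ≤ 2 * (p : ℝ) := by exact_mod_cast h8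
  nlinarith

open Classical in
/-- the progressions of `S` with first term `> B` are those of the part of `S` beyond `B` -/
theorem APs_split (k D : ℕ) (_hk : 1 ≤ k) (S : Finset ℕ) (B : ℕ) :
    (APs k D S).card ≤ (APs k D (S.filter (fun n => B < n))).card + (B + 1) * D := by
  have h1 : APs k D S ⊆ APs k D (S.filter (fun n => B < n)) ∪ (range (B + 1)) ×ˢ Icc 1 D := by
    intro q hq
    unfold APs at hq
    rw [mem_filter, mem_product] at hq
    obtain ⟨⟨q1, q2⟩, q3⟩ := hq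
    rw [mem_union]
    rcases Nat.lt_or_ge B q.1 with h | h
    · left
      unfold APs
      rw [mem_filter, mem_product, mem_filter]
      refine ⟨⟨⟨q1, h⟩, q2⟩, fun j hj => ?_⟩
      rw [mem_filter]
      exact ⟨q3 j hj, by have := Nat.zero_le (j * q.2); omega⟩
    · right
      rw [mem_product, mem_range]
      exact ⟨by omega, q2⟩
  refine (card_le_card h1).trans ((card_union_le _ _).trans ?_)
  rw [card_product, card_range, Nat.card_Icc, Nat.add_sub_cancel]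

open Classical in
theorem APs_mono (k D : ℕ) {S T : Finset ℕ} (h : S ⊆ T) : APs k D S ⊆ APs k D T := by
  intro q hq
  unfold APs at hq ⊢
  rw [mem_filter, mem_product] at hq ⊢
  exact ⟨⟨h hq.1.1, hq.1.2⟩, fun j hj => h (hq.2 j hj)⟩

/-- powers of logarithms -/
theorem pow_small (m : ℕ) (ε : ℝ) (hε : 0 < ε) : ∃ X₀ : ℕ, 3 ≤ X₀ ∧ ∀ X : ℕ, X₀ ≤ X →
    (X : ℝ) ^ (1 / 2 : ℝ) + 1 ≤ ε * (X / Real.log X ^ m) := by
  have h2 : (fun x : ℝ => Real.log x ^ m) =o[atTop] (fun x : ℝ => x ^ (1 / 2 : ℝ)) := by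
    have h3 := isLittleO_log_rpow_rpow_atTop (s := (1 / 2 : ℝ)) (m : ℝ) (by norm_num)
    refine h3.congr' ?_ EventuallyEq.rfl
    filter_upwards with x
    rw [Real.rpow_natCast]
  have h3 := (h2.def (show (0 : ℝ) < ε / 2 by positivity))
  have h4 := tendsto_natCast_atTop_atTop (R := ℝ) |>.eventually h3
  obtain ⟨X₁, h5⟩ := eventually_atTop.1 h4
  refine ⟨max X₁ 3, le_max_right _ _, fun X hX => ?_⟩
  have hX3 : 3 ≤ X := (le_max_right _ _).trans hX
  have h6 := h5 X ((le_max_left _ _).trans hX)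
  have hX0 : (0 : ℝ) < X := by exact_mod_cast (by omega : 0 < X)
  have hX1 : (1 : ℝ) ≤ X := by exact_mod_cast (by omega : 1 ≤ X)
  have hlX : 0 < Real.log X := Real.log_pos (by exact_mod_cast (by omega : 1 < X))
  rw [Real.norm_of_nonneg (by positivity), Real.norm_of_nonneg (by positivity)] at h6
  have h7 : (X : ℝ) ^ (1 / 2 : ℝ) * (X : ℝ) ^ (1 / 2 : ℝ) = X := by
    rw [← Real.rpow_add hX0]
    norm_num
  have h8 : (1 : ℝ) ≤ (X : ℝ) ^ (1 / 2 : ℝ) := Real.one_le_rpow hX1 (by norm_num)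
  have h9 : (X : ℝ) ^ (1 / 2 : ℝ) ≤ ε / 2 * (X / Real.log X ^ m) := by
    rw [← mul_div_assoc, le_div_iff₀ (by positivity)]
    calc (X : ℝ) ^ (1 / 2 : ℝ) * Real.log X ^ m ≤ (X : ℝ) ^ (1 / 2 : ℝ) * (ε / 2 * (X : ℝ) ^ (1 / 2 : ℝ)) := by
          gcongr
      _ = ε / 2 * ((X : ℝ) ^ (1 / 2 : ℝ) * (X : ℝ) ^ (1 / 2 : ℝ)) := by ring
      _ = _ := by rw [h7]
  linarith

/-- the number of the progressions, prime values -/
theorem prime_up (f : ι → ℤ[X]) (hf : Sys f) (k : ℕ) (hk : 1 ≤ k) :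
    ∃ C : ℝ, 0 < C ∧ ∃ B X₀ : ℕ, ∀ X A D : ℕ, X₀ ≤ X → Real.log X ^ B ≤ D →
      ((APs k D (Pf f A X)).card : ℝ) ≤ C * (X * D / Real.log X ^ (Fintype.card ι * k)) := by
  classical
  obtain ⟨C, hC, B, X₁, h1⟩ := up f hf k hk (1 / 4) (by norm_num)
  obtain ⟨X₂, h2⟩ := rgh_prime f hf
  obtain ⟨X₃, hX₃, h3⟩ := pow_small (Fintype.card ι * k) 1 one_pos
  refine ⟨C + 1, by positivity, B, max (max X₁ X₂) X₃, fun X A D hX hD => ?_⟩
  have h4 := APs_split k D hk (Pf f A X) ⌊(X : ℝ) ^ (1 / 2 : ℝ)⌋₊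
  have h5 := h1 X A D (by omega) hD ((Pf f A X).filter (fun n => ⌊(X : ℝ) ^ (1 / 2 : ℝ)⌋₊ < n))
    ((filter_subset _ _).trans (filter_subset _ _)) (by
      intro n hn
      rw [mem_filter] at hn
      unfold Pf at hn
      rw [mem_filter] at hn
      exact h2 X (by omega) n ((Nat.floor_lt (by positivity)).1 hn.2) hn.1.2)
  have h6 := h3 X (by omega)
  have h7 : ((⌊(X : ℝ) ^ (1 / 2 : ℝ)⌋₊ : ℕ) : ℝ) ≤ (X : ℝ) ^ (1 / 2 : ℝ) := Nat.floor_le (by positivity)
  have h8 : ((APs k D (Pf f A X)).card : ℝ) ≤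
      ((APs k D ((Pf f A X).filter (fun n => ⌊(X : ℝ) ^ (1 / 2 : ℝ)⌋₊ < n))).card : ℝ) +
        ((⌊(X : ℝ) ^ (1 / 2 : ℝ)⌋₊ : ℕ) + 1) * D := by exact_mod_cast h4
  have h9 : (((⌊(X : ℝ) ^ (1 / 2 : ℝ)⌋₊ : ℕ) : ℝ) + 1) * D ≤
      1 * (X / Real.log X ^ (Fintype.card ι * k)) * D := by
    apply mul_le_mul_of_nonneg_right _ (Nat.cast_nonneg _)
    linarith
  calc ((APs k D (Pf f A X)).card : ℝ) ≤ C * (X * D / Real.log X ^ (Fintype.card ι * k)) +
        1 * (X / Real.log X ^ (Fintype.card ι * k)) * D := by linarith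
    _ = _ := by ring

theorem prime_dn (f : ι → ℤ[X]) (hf : Sys f) (k : ℕ) (hk : 1 ≤ k) (δ : ℝ) (hδ : 0 < δ) :
    ∃ c : ℝ, 0 < c ∧ ∃ B X₀ : ℕ, ∀ X A D : ℕ, X₀ ≤ X → Real.log X ^ B ≤ D → D ≤ X →
      (δ * (X / Real.log X ^ (Fintype.card ι)) ≤ (Pf f A X).card →
        c * (X * D / Real.log X ^ (Fintype.card ι * k)) ≤ ((APs k D (Pf f A X)).card : ℝ)) ∧
      (δ * (X * D / Real.log X ^ (Fintype.card ι * k)) ≤ ((APs k D (Pf f A X)).card : ℝ) →
        c * (X / Real.log X ^ (Fintype.card ι)) ≤ (Pf f A X).card) := by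
  classical
  obtain ⟨c, hc, B, X₁, h1⟩ := dn f hf k hk (1 / 4) (δ / 2) (by norm_num) (by positivity)
  obtain ⟨X₂, h2⟩ := rgh_prime f hf
  obtain ⟨X₃, hX₃, h3⟩ := pow_small (Fintype.card ι * k) (δ / 2) (by positivity)
  obtain ⟨X₄, hX₄, h3'⟩ := pow_small (Fintype.card ι) (δ / 2) (by positivity)
  refine ⟨c, hc, B, max (max X₁ X₂) (max X₃ X₄), fun X A D hX hD hDX => ?_⟩
  have h4 := APs_split k D hk (Pf f A X) ⌊(X : ℝ) ^ (1 / 2 : ℝ)⌋₊
  set S := (Pf f A X).filter (fun n => ⌊(X : ℝ) ^ (1 / 2 : ℝ)⌋₊ < n) with hS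
  have hSP : S ⊆ Pf f A X := filter_subset _ _
  obtain ⟨h5, h6⟩ := h1 X A D (by omega) hD hDX S (hSP.trans (filter_subset _ _)) (by
      intro n hn
      rw [hS, mem_filter] at hn
      unfold Pf at hn
      rw [mem_filter] at hn
      exact h2 X (by omega) n ((Nat.floor_lt (by positivity)).1 hn.2) hn.1.2)
  have h7 : ((⌊(X : ℝ) ^ (1 / 2 : ℝ)⌋₊ : ℕ) : ℝ) ≤ (X : ℝ) ^ (1 / 2 : ℝ) := Nat.floor_le (by positivity)
  have hX3 : 3 ≤ X := by omega
  have hlX : 0 < Real.log X := Real.log_pos (by exact_mod_cast (by omega : 1 < X))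
  have hDp : 0 ≤ (D : ℝ) := Nat.cast_nonneg _
  constructor
  · intro h
    have h8 : (Pf f A X).card ≤ S.card + ⌊(X : ℝ) ^ (1 / 2 : ℝ)⌋₊ := by
      have h9 : S.card + ((Pf f A X).filter (fun n => ¬ ⌊(X : ℝ) ^ (1 / 2 : ℝ)⌋₊ < n)).card =
          (Pf f A X).card := by
        rw [hS]
        exact card_filter_add_card_filter_not _
      have h10 : ((Pf f A X).filter (fun n => ¬ ⌊(X : ℝ) ^ (1 / 2 : ℝ)⌋₊ < n)).card ≤
          ⌊(X : ℝ) ^ (1 / 2 : ℝ)⌋₊ := by
        calc _ ≤ (Icc 1 ⌊(X : ℝ) ^ (1 / 2 : ℝ)⌋₊).card := by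
              apply card_le_card
              intro n hn
              unfold Pf at hn
              rw [mem_filter, mem_filter, mem_Ioc] at hn
              rw [mem_Icc]
              have := Nat.zero_le A
              omega
          _ = _ := by rw [Nat.card_Icc, Nat.add_sub_cancel]
      omega
    have h11 : ((Pf f A X).card : ℝ) ≤ S.card + (⌊(X : ℝ) ^ (1 / 2 : ℝ)⌋₊ : ℕ) := by exact_mod_cast h8
    have h12 := h3' X (by omega)
    have h13 := h5 (by linarith)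
    refine h13.trans ?_
    exact_mod_cast card_le_card (APs_mono k D hSP)
  · intro h
    have h8 : ((APs k D (Pf f A X)).card : ℝ) ≤ ((APs k D S).card : ℝ) +
        ((⌊(X : ℝ) ^ (1 / 2 : ℝ)⌋₊ : ℕ) + 1) * D := by exact_mod_cast h4
    have h12 := h3 X (by omega)
    have h9 : (((⌊(X : ℝ) ^ (1 / 2 : ℝ)⌋₊ : ℕ) : ℝ) + 1) * D ≤
        δ / 2 * (X / Real.log X ^ (Fintype.card ι * k)) * D := by
      apply mul_le_mul_of_nonneg_right _ hDp
      linarith
    have h13 := h6 (by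
      have : δ * (X * D / Real.log X ^ (Fintype.card ι * k)) = δ / 2 * (X * D / Real.log X ^ (Fintype.card ι * k)) +
        δ / 2 * (X / Real.log X ^ (Fintype.card ι * k)) * D := by ring
      linarith)
    refine h13.trans ?_
    exact_mod_cast card_le_card hSP

end Pool.Agent.V11249.NP
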