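import Pool.Agent.TH464.PW.Main

/-!
# Regular windows, for descriptions of the almost prime values
-/

set_option autoImplicit false

namespace Pool.Agent.V11249.NP

open Polynomial Finset Filter
open Pool.Agent.TH464.PW
open Pool.Agent.W123.RU.Poly (Sys)

open Classical in
/-- `main_pos` with the definitions written out -/
theorem reg_win {g : ℕ} (hg : 0 < g) (f : Fin g → ℤ[X]) (hf : Sys f) (T : ℕ → ℝ → ℕ → Prop)
    (hT : ∀ r z m, T r z m ↔ Almost f r z m) (θ : ℝ) (hθ : 0 < θ) (hθ1 : θ ≤ 1) :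
    ∃ (r : ℕ) (c₁ c₂ K κ : ℝ), 0 < c₁ ∧ 0 < c₂ ∧ 0 < K ∧ 0 < κ ∧ ∀ δ : ℝ, 0 < δ → ∃ B : ℕ,
      ∀ᶠ X : ℕ in atTop, ∀ Y : ℕ, (X : ℝ) ^ θ ≤ Y → Y ≤ X →
        κ * Y ≤ (((Ioc X (X + Y)).filter (fun n =>
          (∀ a b : ℕ, a ≤ n → n ≤ b → K * Real.log X ^ g ≤ (b : ℝ) - a → (b : ℝ) - a ≤ Y →
            c₁ * ((b : ℝ) - a) / Real.log X ^ g ≤
              (((Ioc a b).filter (fun m => T r ((X : ℝ) ^ (1 / (r : ℝ))) m)).card : ℝ) ∧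
            (((Ioc a b).filter (fun m => T r ((X : ℝ) ^ (1 / (r : ℝ))) m)).card : ℝ) ≤
              c₂ * ((b : ℝ) - a) / Real.log X ^ g) ∧
          ((range (Nat.log 2 Y + 1)).filter (fun j => Real.log X ^ g ≤ (2 : ℝ) ^ j ∧
            ¬ ∃ lam : ℝ, c₁ ≤ lam ∧ lam ≤ c₂ ∧ ∀ u v : ℕ, n ≤ u + 2 ^ j → u ≤ v → v ≤ n + 2 ^ j →
              |(((Ioc u v).filter (fun m => T r ((X : ℝ) ^ (1 / (r : ℝ))) m)).card : ℝ) -
                lam * ((v : ℝ) - u) / Real.log X ^ g| ≤ δ * 2 ^ j / Real.log X ^ g)).card ≤ B)).card : ℝ) := by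
  have : Nonempty (Fin g) := ⟨⟨0, hg⟩⟩
  have e : T = Almost f := by
    funext r z m
    exact propext (hT r z m)
  subst e
  obtain ⟨r, c₁, c₂, K, κ, h1, h2, h3, h4, h⟩ := main_pos f hf θ hθ hθ1
  refine ⟨r, c₁, c₂, K, κ, h1, h2, h3, h4, fun δ hδ => ?_⟩
  obtain ⟨B, hB⟩ := h δ hδ
  refine ⟨B, ?_⟩
  filter_upwards [hB] with X hX Y hY1 hY2
  have h5 := hX Y hY1 hY2
  unfold Reg bad ConstD Nc at h5
  rw [Fintype.card_fin] at h5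
  push_cast at h5 ⊢
  exact h5

end Pool.Agent.V11249.NP
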