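import Pool.Agent.Y843.AC.Top
import Pool.Agent.TH464.PO.Gen
import Pool.Agent.V11249.NP.Prm

/-!
# Progressions of arguments of quadratic polynomials, uniformly in the polynomial
-/

set_option autoImplicit false

namespace Pool.Agent.V11249.NP.Uni

open Finset Filter
open Pool.Agent.W123.RP Pool.Agent.H373R2.T7
open Pool.Agent.Y843.HS (Pr VV)
open Pool.Agent.Y843.AC (APs OK Av)

/-- the value -/
def val (a b c : ℤ) (n : ℕ) : ℤ := a * (n : ℤ) ^ 2 + b * n + c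

/-- the local condition -/
structure Adm (a b c : ℤ) : Prop where
  pos : 0 < a
  gcd : ∀ p : ℕ, p.Prime → ¬ ((p : ℤ) ∣ a ∧ (p : ℤ) ∣ b ∧ (p : ℤ) ∣ c)
  par : ¬ (Even (a + b) ∧ Even c)

/-- the sieve condition -/
def QQ (a b c : ℤ) (p n : ℕ) : Prop := (p : ℤ) ∣ val a b c n

open Classical in
noncomputable def ZZ (a b c : ℤ) (p : ℕ) : Finset ℕ := (range p).filter (fun r => QQ a b c p r)

theorem ZZ_card (a b c : ℤ) (p : ℕ) : (ZZ a b c p).card = nuB (QQ a b c) p := rfl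

theorem mem_ZZ {a b c : ℤ} {p x : ℕ} : x ∈ ZZ a b c p ↔ x < p ∧ (p : ℤ) ∣ val a b c x := by
  classical
  unfold ZZ
  rw [mem_filter, mem_range]
  rfl

theorem per (a b c : ℤ) (p n : ℕ) : QQ a b c p n ↔ QQ a b c p (n % p) := by
  unfold QQ val
  have h1 : (p : ℤ) ∣ (n : ℤ) - ((n % p : ℕ) : ℤ) := by
    refine ⟨((n / p : ℕ) : ℤ), ?_⟩
    have := Nat.mod_add_div n p
    have h : ((n % p : ℕ) : ℤ) + p * ((n / p : ℕ) : ℤ) = n := by exact_mod_cast this
    linarith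
  have h2 : (p : ℤ) ∣ (a * (n : ℤ) ^ 2 + b * n + c) - (a * ((n % p : ℕ) : ℤ) ^ 2 + b * ((n % p : ℕ) : ℤ) + c) := by
    have : (a * (n : ℤ) ^ 2 + b * n + c) - (a * ((n % p : ℕ) : ℤ) ^ 2 + b * ((n % p : ℕ) : ℤ) + c) =
        ((n : ℤ) - ((n % p : ℕ) : ℤ)) * (a * ((n : ℤ) + ((n % p : ℕ) : ℤ)) + b) := by ring
    rw [this]
    exact h1.mul_right _
  exact dvd_iff_dvd_of_dvd_sub h2

/-- roots of a quadratic polynomial over a field -/
theorem card_roots_field {K : Type} [Field K] (a b c : K) (h : ¬ (a = 0 ∧ b = 0 ∧ c = 0)) (S : Finset K)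
    (hS : ∀ x ∈ S, a * x ^ 2 + b * x + c = 0) : S.card ≤ 2 := by
  classical
  set g : Polynomial K := Polynomial.C a * Polynomial.X ^ 2 + Polynomial.C b * Polynomial.X + Polynomial.C c
    with hg
  have hg0 : g ≠ 0 := by
    intro h0
    apply h
    have c2 : g.coeff 2 = 0 := by rw [h0]; simp
    have c1 : g.coeff 1 = 0 := by rw [h0]; simp
    have c0 : g.coeff 0 = 0 := by rw [h0]; simp
    rw [hg] at c0 c1 c2
    simp only [Polynomial.coeff_add, Polynomial.coeff_C_mul, Polynomial.coeff_X_pow, Polynomial.coeff_X,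
      Polynomial.coeff_C] at c0 c1 c2
    norm_num at c0 c1 c2
    exact ⟨c2, c1, c0⟩
  have hd : g.natDegree ≤ 2 := by
    rw [hg]
    compute_degree
  have h1 : S ⊆ g.roots.toFinset := by
    intro x hx
    rw [Multiset.mem_toFinset, Polynomial.mem_roots hg0, Polynomial.IsRoot.def, hg]
    simp only [Polynomial.eval_add, Polynomial.eval_mul, Polynomial.eval_C, Polynomial.eval_pow,
      Polynomial.eval_X]
    exact hS x hx
  calc S.card ≤ g.roots.toFinset.card := card_le_card h1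
    _ ≤ Multiset.card g.roots := Multiset.toFinset_card_le _
    _ ≤ g.natDegree := g.card_roots'
    _ ≤ 2 := hd

theorem nu_le {a b c : ℤ} (h : Adm a b c) {p : ℕ} (hp : p.Prime) : nuB (QQ a b c) p ≤ 2 := by
  classical
  have : Fact p.Prime := ⟨hp⟩
  rw [← ZZ_card]
  have h1 : ((ZZ a b c p).image (fun m : ℕ => (m : ZMod p))).card = (ZZ a b c p).card := by
    apply card_image_of_injOn
    intro x hx y hy hxy
    rw [Finset.mem_coe, mem_ZZ] at hx hy
    have := (ZMod.natCast_eq_natCast_iff x y p).1 hxy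
    exact Nat.ModEq.eq_of_lt_of_lt this hx.1 hy.1
  rw [← h1]
  apply card_roots_field (a : ZMod p) (b : ZMod p) (c : ZMod p)
  · rintro ⟨g1, g2, g3⟩
    exact h.gcd p hp ⟨(ZMod.intCast_zmod_eq_zero_iff_dvd a p).1 g1 |> fun h => by exact_mod_cast h,
      (ZMod.intCast_zmod_eq_zero_iff_dvd b p).1 g2 |> fun h => by exact_mod_cast h,
      (ZMod.intCast_zmod_eq_zero_iff_dvd c p).1 g3 |> fun h => by exact_mod_cast h⟩
  · intro x hx
    rw [mem_image] at hx
    obtain ⟨m, hm, rfl⟩ := hx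
    rw [mem_ZZ] at hm
    unfold val at hm
    have := (ZMod.intCast_zmod_eq_zero_iff_dvd _ p).2 hm.2
    push_cast at this
    exact this

theorem nu_lt {a b c : ℤ} (h : Adm a b c) {p : ℕ} (hp : p.Prime) : nuB (QQ a b c) p < p := by
  classical
  rcases Nat.lt_or_ge 2 p with h2 | h2
  · exact lt_of_le_of_lt (nu_le h hp) h2
  · have hp2 : p = 2 := le_antisymm h2 hp.two_le
    subst hp2
    by_contra hcon
    push Not at hcon
    rw [← ZZ_card] at hcon
    have h3 : ZZ a b c 2 = range 2 := by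
      apply eq_of_subset_of_card_le
      · unfold ZZ
        exact filter_subset _ _
      · rw [card_range]
        exact hcon
    have m0 : 0 ∈ ZZ a b c 2 := by rw [h3]; simp
    have m1 : 1 ∈ ZZ a b c 2 := by rw [h3]; simp
    rw [mem_ZZ] at m0 m1
    unfold val at m0 m1
    have e0 := m0.2
    have e1 := m1.2
    push_cast at e0 e1
    apply h.par
    constructor
    · rw [even_iff_two_dvd]
      have := dvd_sub e1 e0
      ring_nf at this
      ring_nf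
      exact this
    · rw [even_iff_two_dvd]
      simpa using e0

theorem perB {a b c : ℤ} (h : Adm a b c) : PerB (QQ a b c) 2 :=
  ⟨per a b c, fun _ hp => nu_le h hp⟩

theorem ok {a b c : ℤ} (h : Adm a b c) (κ : ℝ) (X : ℕ) : OK 2 κ X (ZZ a b c) := by
  intro p hp _
  refine ⟨nu_le h hp, nu_lt h hp, ?_⟩
  intro x hx
  exact (mem_ZZ.1 hx).1

/-- all prime factors of the value at `n` are larger than `X ^ κ` -/
def Rgh (a b c : ℤ) (κ : ℝ) (X n : ℕ) : Prop :=
  ∀ p : ℕ, p.Prime → (p : ℤ) ∣ val a b c n → (X : ℝ) ^ κ < p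

theorem av_of {a b c : ℤ} {κ : ℝ} {X n : ℕ} (h : Rgh a b c κ X n) : Av κ X (ZZ a b c) n := by
  classical
  intro p hp hpX hcon
  have := h p hp ((per a b c p n).2 (mem_ZZ.1 hcon).2)
  linarith

theorem VV_eq (a b c : ℤ) (y : ℕ) : VV (ZZ a b c) 0 y = Vq (QQ a b c) y := by
  unfold VV Vq
  apply prod_congr
  · ext q
    unfold Pr
    rw [mem_filter, mem_Ioc, mem_pz]
    constructor
    · rintro ⟨⟨a, b⟩, c⟩
      exact ⟨b, c⟩
    · rintro ⟨b, c⟩
      exact ⟨⟨c.pos, b⟩, c⟩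
  · intro q _
    rw [ZZ_card]

/-- the number of solutions of `f n = v` -/
theorem card_fib {a b c : ℤ} (h : Adm a b c) (v : ℤ) (S : Finset ℕ) :
    (S.filter (fun n => val a b c n = v)).card ≤ 2 := by
  classical
  have h1 : ((S.filter (fun n => val a b c n = v)).image (fun m : ℕ => (m : ℚ))).card =
      (S.filter (fun n => val a b c n = v)).card := by
    apply card_image_of_injective
    exact Nat.cast_injective
  rw [← h1]
  apply card_roots_field (a : ℚ) (b : ℚ) ((c : ℚ) - v)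
  · rintro ⟨g1, -, -⟩
    have : a = 0 := by exact_mod_cast g1
    have := h.pos
    omega
  · intro x hx
    rw [mem_image] at hx
    obtain ⟨m, hm, rfl⟩ := hx
    rw [mem_filter] at hm
    unfold val at hm
    have : ((a * (m : ℤ) ^ 2 + b * m + c : ℤ) : ℚ) = (v : ℚ) := by exact_mod_cast hm.2
    push_cast at this
    linarith

/-- few arguments with a small value -/
theorem card_small {a b c : ℤ} (h : Adm a b c) (M : ℕ) (S : Finset ℕ) :
    (S.filter (fun n => (val a b c n).natAbs ≤ M)).card ≤ 2 * (2 * M + 1) := by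
  classical
  have h1 : S.filter (fun n => (val a b c n).natAbs ≤ M) ⊆
      (Icc (-(M : ℤ)) M).biUnion (fun v => S.filter (fun n => val a b c n = v)) := by
    intro n hn
    rw [mem_filter] at hn
    rw [mem_biUnion]
    refine ⟨val a b c n, ?_, ?_⟩
    · rw [mem_Icc]
      omega
    · rw [mem_filter]
      exact ⟨hn.1, rfl⟩
  refine (card_le_card h1).trans ((card_biUnion_le).trans ?_)
  refine (sum_le_card_nsmul _ _ 2 (fun v _ => card_fib h v S)).trans ?_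
  rw [Int.card_Icc, smul_eq_mul]
  omega

open Classical in
/-- removing a few elements destroys few progressions -/
theorem APs_diff (k D : ℕ) (S E : Finset ℕ) (hk : 1 ≤ k) :
    (APs k D S).card ≤ (APs k D (S \ E)).card + k * E.card * D := by
  have h1 : APs k D S ⊆ APs k D (S \ E) ∪
      ((range k ×ˢ (E ×ˢ Icc 1 D)).image (fun t : ℕ × (ℕ × ℕ) => (t.2.1 - t.1 * t.2.2, t.2.2))) := by
    intro q hq
    unfold APs at hq
    rw [mem_filter, mem_product] at hq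
    obtain ⟨⟨q1, q2⟩, q3⟩ := hq
    rw [mem_union]
    by_cases h : ∃ j < k, q.1 + j * q.2 ∈ E
    · right
      obtain ⟨j, hj, hE⟩ := h
      rw [mem_image]
      refine ⟨(j, (q.1 + j * q.2, q.2)), ?_, ?_⟩
      · rw [mem_product, mem_product, mem_range]
        exact ⟨hj, hE, q2⟩
      · simp
    · left
      push Not at h
      unfold APs
      rw [mem_filter, mem_product, Finset.mem_sdiff]
      refine ⟨⟨⟨q1, ?_⟩, q2⟩, fun j hj => ?_⟩
      · have := h 0 (by omega)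
        simpa using this
      · rw [Finset.mem_sdiff]
        exact ⟨q3 j hj, h j hj⟩
  refine (card_le_card h1).trans ((card_union_le _ _).trans ?_)
  apply Nat.add_le_add_left
  refine card_image_le.trans ?_
  rw [card_product, card_product, card_range, Nat.card_Icc, Nat.add_sub_cancel, mul_assoc]

/-- lower bound for the sieve product -/
theorem V_low (κ : ℝ) (hκ : 0 < κ) : ∃ v : ℝ, 0 < v ∧ ∃ X₀ : ℕ, ∀ X : ℕ, X₀ ≤ X → ∀ a b c : ℤ, Adm a b c →
    v / Real.log X ^ 2 ≤ VV (ZZ a b c) 0 ⌊(X : ℝ) ^ κ⌋₊ := by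
  obtain ⟨v, hv, h⟩ := Pool.Agent.TH464.PO.V_lower_unif 2
  have e1 : ∀ᶠ X : ℕ in atTop, (3 : ℝ) ≤ (X : ℝ) ^ κ :=
    ((tendsto_rpow_atTop hκ).comp tendsto_natCast_atTop_atTop).eventually (eventually_ge_atTop 3)
  obtain ⟨X₁, h1⟩ := eventually_atTop.1 e1
  refine ⟨v / κ ^ 2, by positivity, max X₁ 3, fun X hX a b c hadm => ?_⟩
  have hX0 : (0 : ℝ) < X := by exact_mod_cast (by omega : 0 < X)
  have hl : 0 < Real.log X := Real.log_pos (by exact_mod_cast (by omega : 1 < X))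
  have h2 := h1 X (by omega)
  have hy2 : 2 ≤ ⌊(X : ℝ) ^ κ⌋₊ := Nat.le_floor (by push_cast; linarith)
  have hy0 : (1 : ℝ) < (⌊(X : ℝ) ^ κ⌋₊ : ℝ) := by exact_mod_cast (by omega : 1 < ⌊(X : ℝ) ^ κ⌋₊)
  have l0 : 0 < Real.log (⌊(X : ℝ) ^ κ⌋₊ : ℝ) := Real.log_pos hy0
  have h6 : (⌊(X : ℝ) ^ κ⌋₊ : ℝ) ≤ (X : ℝ) ^ κ := Nat.floor_le (by positivity)
  have l2 : Real.log (⌊(X : ℝ) ^ κ⌋₊ : ℝ) ≤ κ * Real.log X := by
    rw [← Real.log_rpow hX0]
    exact Real.log_le_log (by linarith) h6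
  rw [VV_eq]
  refine le_trans ?_ (h (QQ a b c) (perB hadm) (fun p hp => nu_lt hadm hp) _ hy2)
  rw [div_div, ← mul_pow]
  apply div_le_div_of_nonneg_left hv.le (by positivity)
  exact pow_le_pow_left₀ l0.le l2 _

/-- the arguments in the window with prime values (up to the sign) -/
def Pf (a b c : ℤ) (A N : ℕ) : Finset ℕ := (Ioc A (A + N)).filter (fun n => (val a b c n).natAbs.Prime)

/-- the small values -/
noncomputable def Ef (a b c : ℤ) (A N : ℕ) : Finset ℕ :=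
  (Pf a b c A N).filter (fun n => (val a b c n).natAbs ≤ ⌊(N : ℝ) ^ (1 / 4 : ℝ)⌋₊)

theorem rgh_big {a b c : ℤ} {A N n : ℕ} (hn : n ∈ Pf a b c A N \ Ef a b c A N) : Rgh a b c (1 / 4) N n := by
  rw [Finset.mem_sdiff] at hn
  obtain ⟨h1, h2⟩ := hn
  have h3 : ¬ (val a b c n).natAbs ≤ ⌊(N : ℝ) ^ (1 / 4 : ℝ)⌋₊ := by
    intro h
    apply h2
    unfold Ef
    rw [mem_filter]
    exact ⟨h1, h⟩
  unfold Pf at h1
  rw [mem_filter] at h1
  intro p hp hd
  have h7 : p = (val a b c n).natAbs := (Nat.prime_dvd_prime_iff_eq hp h1.2).1 (Int.natCast_dvd.1 hd)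
  rw [h7]
  exact (Nat.floor_lt (by positivity)).1 (not_le.1 h3)

theorem card_Ef {a b c : ℤ} (h : Adm a b c) {A N : ℕ} (hN : 1 ≤ N) :
    ((Ef a b c A N).card : ℝ) ≤ 6 * (N : ℝ) ^ (1 / 2 : ℝ) := by
  have h1 := card_small h ⌊(N : ℝ) ^ (1 / 4 : ℝ)⌋₊ (Pf a b c A N)
  have h2 : ((Ef a b c A N).card : ℝ) ≤ 2 * (2 * (⌊(N : ℝ) ^ (1 / 4 : ℝ)⌋₊ : ℕ) + 1) := by
    unfold Ef
    exact_mod_cast h1
  have h3 : ((⌊(N : ℝ) ^ (1 / 4 : ℝ)⌋₊ : ℕ) : ℝ) ≤ (N : ℝ) ^ (1 / 4 : ℝ) := Nat.floor_le (by positivity)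
  have hN1 : (1 : ℝ) ≤ N := by exact_mod_cast hN
  have h4 : (N : ℝ) ^ (1 / 4 : ℝ) ≤ (N : ℝ) ^ (1 / 2 : ℝ) :=
    Real.rpow_le_rpow_of_exponent_le hN1 (by norm_num)
  have h5 : (1 : ℝ) ≤ (N : ℝ) ^ (1 / 2 : ℝ) := Real.one_le_rpow hN1 (by norm_num)
  linarith

/-- the sieve product -/
noncomputable def V (a b c : ℤ) (κ : ℝ) (N : ℕ) : ℝ := VV (ZZ a b c) 0 ⌊(N : ℝ) ^ κ⌋₊

theorem up (k : ℕ) (hk : 1 ≤ k) (κ : ℝ) (hκ : 0 < κ) :
    ∃ C : ℝ, 0 < C ∧ ∃ B X₀ : ℕ, ∀ a b c : ℤ, Adm a b c → ∀ X A D : ℕ, X₀ ≤ X → Real.log X ^ B ≤ D →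
      ∀ S : Finset ℕ, S ⊆ Ioc A (A + X) → (∀ n ∈ S, Rgh a b c κ X n) →
      ((APs k D S).card : ℝ) ≤ C * (X * D * V a b c κ X ^ k) := by
  obtain ⟨C, hC, B, X₂, h2⟩ := Pool.Agent.Y843.AC.upa_all 2 k κ hk hκ
  refine ⟨C, hC, B, X₂, fun a b c hadm X A D hX hD S hS hR => ?_⟩
  refine (h2 X A D hX hD (ZZ a b c) (ok hadm κ X) S hS (fun n hn => av_of (hR n hn))).trans ?_
  apply le_of_eq
  unfold V
  ring

theorem dn (k : ℕ) (hk : 1 ≤ k) (κ δ : ℝ) (hκ : 0 < κ) (hδ : 0 < δ) :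
    ∃ c₀ : ℝ, 0 < c₀ ∧ ∃ B X₀ : ℕ, ∀ a b c : ℤ, Adm a b c → ∀ X A D : ℕ, X₀ ≤ X → Real.log X ^ B ≤ D →
      D ≤ X → ∀ S : Finset ℕ, S ⊆ Ioc A (A + X) → (∀ n ∈ S, Rgh a b c κ X n) →
      (δ * (X * V a b c κ X) ≤ S.card → c₀ * (X * D * V a b c κ X ^ k) ≤ ((APs k D S).card : ℝ)) ∧
      (δ * (X * D * V a b c κ X ^ k) ≤ ((APs k D S).card : ℝ) → c₀ * (X * V a b c κ X) ≤ S.card) := by
  obtain ⟨c₁, hc₁, B₁, X₂, h2⟩ := Pool.Agent.Y843.AC.cnt_all 2 k κ δ hk hκ hδ
  obtain ⟨c₂, hc₂, B₂, X₃, h3⟩ := Pool.Agent.Y843.AC.conv_all 2 k κ δ hk hκ hδ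
  refine ⟨min c₁ c₂, by positivity, max B₁ B₂, max (max X₂ X₃) 3, fun a b c hadm X A D hX hD hDX S hS hR => ?_⟩
  have hX3 : (3 : ℝ) ≤ X := by exact_mod_cast (by omega : 3 ≤ X)
  have hl1 : 1 ≤ Real.log X := by
    rw [Real.le_log_iff_exp_le (by linarith)]
    have := Real.exp_one_lt_d9
    linarith
  have hD1 : Real.log X ^ B₁ ≤ D := (pow_le_pow_right₀ hl1 (le_max_left _ _)).trans hD
  have hD2 : Real.log X ^ B₂ ≤ D := (pow_le_pow_right₀ hl1 (le_max_right _ _)).trans hD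
  have hAv : ∀ n ∈ S, Av κ X (ZZ a b c) n := fun n hn => av_of (hR n hn)
  have hV0 : 0 ≤ V a b c κ X := by
    unfold V VV
    apply prod_nonneg
    intro p hp
    unfold Pr at hp
    rw [mem_filter] at hp
    have hp0 : (0 : ℝ) < p := by exact_mod_cast hp.2.pos
    rw [sub_nonneg, div_le_one hp0, ZZ_card]
    exact_mod_cast (nu_lt hadm hp.2).le
  constructor
  · intro h
    have h4 := h2 X A D (by omega) hD1 hDX (ZZ a b c) (ok hadm κ X) S hS hAv (by
      refine le_trans (le_of_eq ?_) h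
      unfold V
      ring)
    refine le_trans ?_ h4
    calc min c₁ c₂ * (X * D * V a b c κ X ^ k) ≤ c₁ * (X * D * V a b c κ X ^ k) := by
          apply mul_le_mul_of_nonneg_right (min_le_left _ _) (by positivity)
      _ = _ := by
          unfold V
          ring
  · intro h
    have h4 := h3 X A D (by omega) hD2 (ZZ a b c) (ok hadm κ X) S hS hAv (by
      refine le_trans (le_of_eq ?_) h
      unfold V
      ring)
    refine le_trans ?_ h4
    calc min c₁ c₂ * (X * V a b c κ X) ≤ c₂ * (X * V a b c κ X) := by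
          apply mul_le_mul_of_nonneg_right (min_le_right _ _) (by positivity)
      _ = _ := by
          unfold V
          ring

/-- removing the small values -/
theorem small_ok (k m : ℕ) (ε : ℝ) (hε : 0 < ε) : ∃ X₀ : ℕ, ∀ X : ℕ, X₀ ≤ X → ∀ a b c : ℤ, Adm a b c →
    ∀ A : ℕ, (k + 1 : ℝ) * (Ef a b c A X).card ≤ ε * (X * V a b c (1 / 4) X ^ m) := by
  obtain ⟨v, hv, X₁, h1⟩ := V_low (1 / 4) (by norm_num)
  obtain ⟨X₂, hX₂, h2⟩ := pow_small (2 * m) (ε * v ^ m / (6 * (k + 1))) (by positivity)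
  refine ⟨max X₁ X₂, fun X hX a b c hadm A => ?_⟩
  have h3 := h2 X (by omega)
  have h4 := h1 X (by omega) a b c hadm
  have h5 := card_Ef hadm (A := A) (N := X) (by omega)
  have hl : 0 < Real.log X := Real.log_pos (by exact_mod_cast (by omega : 1 < X))
  have h6 : (v / Real.log X ^ 2) ^ m ≤ V a b c (1 / 4) X ^ m := pow_le_pow_left₀ (by positivity) h4 m
  calc (k + 1 : ℝ) * (Ef a b c A X).card ≤ (k + 1 : ℝ) * (6 * (X : ℝ) ^ (1 / 2 : ℝ)) := by gcongr
    _ ≤ (k + 1 : ℝ) * (6 * (ε * v ^ m / (6 * (k + 1)) * (X / Real.log X ^ (2 * m)))) := by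
        gcongr
        linarith
    _ = ε * (X * (v / Real.log X ^ 2) ^ m) := by
        rw [div_pow, ← pow_mul]
        field_simp
    _ ≤ _ := by gcongr

theorem prime_up (k : ℕ) (hk : 1 ≤ k) :
    ∃ C : ℝ, 0 < C ∧ ∃ B X₀ : ℕ, ∀ a b c : ℤ, Adm a b c → ∀ X A D : ℕ, X₀ ≤ X → Real.log X ^ B ≤ D →
      ((APs k D (Pf a b c A X)).card : ℝ) ≤ C * (X * D * V a b c (1 / 4) X ^ k) := by
  classical
  obtain ⟨C, hC, B, X₁, h1⟩ := up k hk (1 / 4) (by norm_num)
  obtain ⟨X₂, h2⟩ := small_ok k k 1 one_pos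
  refine ⟨C + 1, by positivity, B, max X₁ X₂, fun a b c hadm X A D hX hD => ?_⟩
  have h4 := APs_diff k D (Pf a b c A X) (Ef a b c A X) hk
  have h5 := h1 a b c hadm X A D (by omega) hD (Pf a b c A X \ Ef a b c A X)
    (sdiff_subset.trans (filter_subset _ _)) (fun n hn => rgh_big hn)
  have h6 := h2 X (by omega) a b c hadm A
  have h8 : ((APs k D (Pf a b c A X)).card : ℝ) ≤
      ((APs k D (Pf a b c A X \ Ef a b c A X)).card : ℝ) + k * (Ef a b c A X).card * D := by exact_mod_cast h4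
  have h9 : (k : ℝ) * (Ef a b c A X).card * D ≤ 1 * (X * V a b c (1 / 4) X ^ k) * D := by
    apply mul_le_mul_of_nonneg_right _ (Nat.cast_nonneg _)
    refine le_trans ?_ h6
    apply mul_le_mul_of_nonneg_right _ (Nat.cast_nonneg _)
    linarith
  calc ((APs k D (Pf a b c A X)).card : ℝ) ≤ C * (X * D * V a b c (1 / 4) X ^ k) +
        1 * (X * V a b c (1 / 4) X ^ k) * D := by linarith
    _ = _ := by ring

theorem APs_mono (k D : ℕ) {S T : Finset ℕ} (h : S ⊆ T) : APs k D S ⊆ APs k D T :=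
  Pool.Agent.V11249.NP.APs_mono k D h

theorem prime_dn (k : ℕ) (hk : 1 ≤ k) (δ : ℝ) (hδ : 0 < δ) :
    ∃ c₀ : ℝ, 0 < c₀ ∧ ∃ B X₀ : ℕ, ∀ a b c : ℤ, Adm a b c → ∀ X A D : ℕ, X₀ ≤ X → Real.log X ^ B ≤ D →
      D ≤ X →
      (δ * (X * V a b c (1 / 4) X) ≤ (Pf a b c A X).card →
        c₀ * (X * D * V a b c (1 / 4) X ^ k) ≤ ((APs k D (Pf a b c A X)).card : ℝ)) ∧
      (δ * (X * D * V a b c (1 / 4) X ^ k) ≤ ((APs k D (Pf a b c A X)).card : ℝ) →
        c₀ * (X * V a b c (1 / 4) X) ≤ (Pf a b c A X).card) := by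
  classical
  obtain ⟨c₀, hc₀, B, X₁, h1⟩ := dn k hk (1 / 4) (δ / 2) (by norm_num) (by positivity)
  obtain ⟨X₂, h2⟩ := small_ok k k (δ / 2) (by positivity)
  obtain ⟨X₃, h3⟩ := small_ok 0 1 (δ / 2) (by positivity)
  refine ⟨c₀, hc₀, B, max X₁ (max X₂ X₃), fun a b c hadm X A D hX hD hDX => ?_⟩
  have h4 := APs_diff k D (Pf a b c A X) (Ef a b c A X) hk
  obtain ⟨h5, h6⟩ := h1 a b c hadm X A D (by omega) hD hDX (Pf a b c A X \ Ef a b c A X)
    (sdiff_subset.trans (filter_subset _ _)) (fun n hn => rgh_big hn)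
  have g2 := h2 X (by omega) a b c hadm A
  have g3 := h3 X (by omega) a b c hadm A
  have hsub : Pf a b c A X \ Ef a b c A X ⊆ Pf a b c A X := sdiff_subset
  constructor
  · intro h
    have h7 : (Pf a b c A X).card ≤ (Pf a b c A X \ Ef a b c A X).card + (Ef a b c A X).card := by
      have := card_le_card (show Pf a b c A X ⊆ (Pf a b c A X \ Ef a b c A X) ∪ Ef a b c A X by
        intro x hx
        rw [mem_union, Finset.mem_sdiff]
        by_cases hE : x ∈ Ef a b c A X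
        · exact Or.inr hE
        · exact Or.inl ⟨hx, hE⟩)
      exact this.trans (card_union_le _ _)
    have h8 : ((Pf a b c A X).card : ℝ) ≤ ((Pf a b c A X \ Ef a b c A X).card : ℝ) + (Ef a b c A X).card := by
      exact_mod_cast h7
    have h9 := h5 (by
      rw [pow_one] at g3
      push_cast at g3
      linarith)
    refine h9.trans ?_
    exact_mod_cast card_le_card (APs_mono k D hsub)
  · intro h
    have h8 : ((APs k D (Pf a b c A X)).card : ℝ) ≤
      ((APs k D (Pf a b c A X \ Ef a b c A X)).card : ℝ) + k * (Ef a b c A X).card * D := by exact_mod_cast h4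
    have h9 : (k : ℝ) * (Ef a b c A X).card * D ≤ δ / 2 * (X * V a b c (1 / 4) X ^ k) * D := by
      apply mul_le_mul_of_nonneg_right _ (Nat.cast_nonneg _)
      refine le_trans ?_ g2
      apply mul_le_mul_of_nonneg_right _ (Nat.cast_nonneg _)
      linarith
    have h13 := h6 (by
      have : δ * (X * D * V a b c (1 / 4) X ^ k) = δ / 2 * (X * D * V a b c (1 / 4) X ^ k) +
        δ / 2 * (X * V a b c (1 / 4) X ^ k) * D := by ring
      linarith)
    refine h13.trans ?_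
    exact_mod_cast card_le_card hsub

end Pool.Agent.V11249.NP.Uni
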